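import Pool.Agent.H821Z.Ex.Basic

/-! Relabellings and partial isomorphisms. -/

set_option autoImplicit false

namespace Pool.Agent.H821Z.Ex

open Finset Equiv

/-- simultaneous permutations of vertices, elements and parameters -/
structure G where
  σ : Perm ℕ
  γ : Perm El
  ρ : Perm ℕ
  h : ∀ c, (γ c).1 = σ c.1

def G.mul (k g : G) : G := ⟨k.σ * g.σ, k.γ * g.γ, k.ρ * g.ρ, fun c => by simp [k.h, g.h]⟩

def G.inv (g : G) : G := ⟨g.σ⁻¹, g.γ⁻¹, g.ρ⁻¹, fun c => by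
  have := g.h (g.γ⁻¹ c)
  simp only [Perm.coe_inv, apply_symm_apply] at this
  simp [this]⟩

def G.one : G := ⟨1, 1, 1, fun _ => rfl⟩

def G.of (σ : Perm ℕ) (τ : ℕ → Perm ℕ) (ρ : Perm ℕ) : G :=
  ⟨σ, Equiv.prodShear σ τ, ρ, fun _ => rfl⟩

lemma G.of_γ (σ : Perm ℕ) (τ : ℕ → Perm ℕ) (ρ : Perm ℕ) (c : El) :
    (G.of σ τ ρ).γ c = (σ c.1, τ c.1 c.2) := rfl

lemma vs_act (g : G) (r : Edge) : vs (g.γ ∘ r) = (vs r).image g.σ := by
  simp only [vs, image_image]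
  exact image_congr fun i _ => g.h _

lemma vs_act_subset (g : G) (r : Edge) (X : Finset ℕ) :
    vs (g.γ ∘ r) ⊆ X.image g.σ ↔ vs r ⊆ X := by
  rw [vs_act]
  exact image_subset_image_iff g.σ.injective

lemma image_inv (e : Perm ℕ) (X : Finset ℕ) : (X.image e).image ⇑(e⁻¹) = X := by
  rw [image_image]
  simp

lemma image_inv' (e : Perm ℕ) (X : Finset ℕ) : (X.image ⇑(e⁻¹)).image e = X := by
  rw [image_image]
  simp

lemma image_mul (e e' : Perm ℕ) (X : Finset ℕ) : X.image ⇑(e * e') = (X.image e').image e := by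
  rw [image_image, Perm.coe_mul]

lemma act_inj (g : G) : Function.Injective fun r : Edge => g.γ ∘ r :=
  fun _ _ h => g.γ.injective.comp_left h

lemma inv_act (g : G) (r : Edge) : g.inv.γ ∘ (g.γ ∘ r) = r := by
  funext i
  simp [G.inv]

lemma act_inv (g : G) (r : Edge) : g.γ ∘ (g.inv.γ ∘ r) = r := by
  funext i
  simp [G.inv]

def Iso (g : G) (M N : Str) (X Q : Finset ℕ) : Prop :=
  (∀ r, vs r ⊆ X → (r ∈ M.R ↔ g.γ ∘ r ∈ N.R)) ∧
    ∀ p ∈ Q, ∀ v ∈ X, g.γ (v, M.f p v) = (g.σ v, N.f (g.ρ p) (g.σ v))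

variable {g k : G} {M N L : Str} {X Y Q Q' A B : Finset ℕ}

lemma Iso.mono (h : Iso g M N X Q) (hX : Y ⊆ X) (hQ : Q' ⊆ Q) : Iso g M N Y Q' :=
  ⟨fun r hr => h.1 r (hr.trans hX), fun p hp v hv => h.2 p (hQ hp) v (hX hv)⟩

lemma Iso.mul (h : Iso g M N X Q) (h' : Iso k N L (X.image g.σ) (Q.image g.ρ)) :
    Iso (k.mul g) M L X Q := by
  refine ⟨fun r hr => (h.1 r hr).trans (h'.1 _ ((vs_act_subset g r X).2 hr)), fun p hp v hv => ?_⟩
  have := h'.2 _ (mem_image_of_mem _ hp) _ (mem_image_of_mem _ hv)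
  rw [← h.2 p hp v hv] at this
  exact this

lemma Iso.inv (h : Iso g M N X Q) : Iso g.inv N M (X.image g.σ) (Q.image g.ρ) := by
  constructor
  · intro r hr
    rw [← act_inv g r, vs_act_subset] at hr
    have := h.1 _ hr
    rw [act_inv] at this
    exact this.symm
  · intro p' hp' v' hv'
    obtain ⟨p, hp, rfl⟩ := mem_image.1 hp'
    obtain ⟨v, hv, rfl⟩ := mem_image.1 hv'
    rw [← h.2 p hp v hv]
    simp [G.inv]

lemma Iso.agree_left (h : Agree M N X Q) (h' : Iso g N L X Q) : Iso g M L X Q :=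
  ⟨fun r hr => (h.1 r hr).trans (h'.1 r hr), fun p hp v hv => by
    rw [h.2 p hp v hv, h'.2 p hp v hv]⟩

lemma Iso.agree_right (h : Iso g M N X Q) (h' : Agree N L (X.image g.σ) (Q.image g.ρ)) :
    Iso g M L X Q :=
  ⟨fun r hr => (h.1 r hr).trans (h'.1 _ ((vs_act_subset g r X).2 hr)), fun p hp v hv => by
    rw [h.2 p hp v hv, h'.2 _ (mem_image_of_mem _ hp) _ (mem_image_of_mem _ hv)]⟩

lemma Iso.agree (h : Iso g M N X Q) (h' : Iso g M L X Q) :
    Agree N L (X.image g.σ) (Q.image g.ρ) := by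
  constructor
  · intro r hr
    rw [← act_inv g r, vs_act_subset] at hr
    have := (h.1 _ hr).symm.trans (h'.1 _ hr)
    rwa [act_inv] at this
  · intro p' hp' v' hv'
    obtain ⟨p, hp, rfl⟩ := mem_image.1 hp'
    obtain ⟨v, hv, rfl⟩ := mem_image.1 hv'
    exact (Prod.mk.inj ((h.2 p hp v hv).symm.trans (h'.2 p hp v hv))).2

lemma Iso.agree_of_fix (h : Iso g M N X Q) (h1 : ∀ c : El, c.1 ∈ X → g.γ c = c)
    (h2 : ∀ p ∈ Q, g.ρ p = p) : Agree M N X Q := by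
  constructor
  · intro r hr
    have : g.γ ∘ r = r := funext fun i => h1 _ (hr (mem_vs r i))
    rw [h.1 r hr, this]
  · intro p hp v hv
    have e := h.2 p hp v hv
    rw [h1 _ hv, h2 p hp] at e
    obtain ⟨e1, e2⟩ := Prod.mk.inj e
    rw [← e1] at e2
    exact e2

lemma iso_one (M : Str) (X Q : Finset ℕ) : Iso G.one M M X Q :=
  ⟨fun _ _ => Iff.rfl, fun _ _ _ _ => rfl⟩

/-- the translate of a structure -/
def tr (g : G) (M : Str) : Str :=
  ⟨{r | g.inv.γ ∘ r ∈ M.R}, fun q w => (g.γ (g.σ⁻¹ w, M.f (g.ρ⁻¹ q) (g.σ⁻¹ w))).2⟩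

lemma iso_tr (g : G) (M : Str) (X Q : Finset ℕ) : Iso g M (tr g M) X Q := by
  constructor
  · intro r _
    simp only [tr, Set.mem_ofPred_eq, inv_act]
  · intro p _ v _
    refine Prod.ext (g.h _) ?_
    simp [tr]

lemma out_tr {F : Finset Edge} (h : Out (tr g M).R (X.image g.σ) Y F) :
    Out M.R X (Y.image ⇑(g.σ⁻¹)) (F.image fun r => g.inv.γ ∘ r) := by
  intro r' hr'
  obtain ⟨r, hr, rfl⟩ := mem_image.1 hr'
  obtain ⟨h1, h2, h3⟩ := h r hr
  refine ⟨h1, fun h4 => h2 ?_, ?_⟩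
  · rw [← vs_act_subset g, act_inv] at h4
    exact h4
  · rw [← vs_act_subset g, act_inv, image_union, image_inv']
    exact h3

lemma Cl.tr (h : Cl M.R X) (g : G) : Cl (tr g M).R (X.image g.σ) := by
  intro Y F hY hF
  have := h _ _ (hY.image _) (out_tr hF)
  rwa [card_image_of_injective _ (act_inj g.inv), card_image_of_injective _ (g.σ⁻¹).injective]
    at this

lemma Wk.tr (h : Wk M.R X) (g : G) : Wk (tr g M).R (X.image g.σ) := by
  intro Y F hF
  have := h _ _ (out_tr hF)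
  rwa [card_image_of_injective _ (act_inj g.inv), card_image_of_injective _ (g.σ⁻¹).injective]
    at this

lemma Ind.tr (h : Ind M.R A B) (g : G) : Ind (tr g M).R (A.image g.σ) (B.image g.σ) := by
  unfold Ind
  rw [← image_union]
  refine ⟨fun r hr h1 => ?_, h.2.tr g⟩
  rw [← act_inv g r] at h1 ⊢
  simp only [vs_act_subset] at h1 ⊢
  exact h.1 _ hr h1

lemma Sp.tr (h : Sp M.R) (g : G) : Sp (tr g M).R := by
  intro X F hF
  have := h (X.image ⇑(g.σ⁻¹)) (F.image fun r => g.inv.γ ∘ r) (by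
    intro r' hr'
    obtain ⟨r, hr, rfl⟩ := mem_image.1 hr'
    exact ⟨(hF r hr).1, (vs_act_subset g.inv r X).2 (hF r hr).2⟩)
  rwa [card_image_of_injective _ (act_inj g.inv), card_image_of_injective _ (g.σ⁻¹).injective]
    at this

lemma Hit.tr (h : Hit M) (g : G) : Hit (tr g M) := by
  intro p r hr
  obtain ⟨i, hi⟩ := h (g.ρ⁻¹ p) _ hr
  refine ⟨i, ?_⟩
  have e1 : ((g.inv.γ ∘ r) i).1 = g.σ⁻¹ (r i).1 := g.inv.h _
  have e2 : (g.σ⁻¹ (r i).1, M.f (g.ρ⁻¹ p) (g.σ⁻¹ (r i).1)) = g.γ⁻¹ (r i) := by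
    rw [← e1, hi]
    rfl
  simp only [H821Z.Ex.tr, e2]
  simp

lemma Iso.cl (h : Iso g M N X Q) (hY : Y ⊆ X) (h1 : Cl M.R Y) (h2 : Cl N.R (X.image g.σ)) :
    Cl N.R (Y.image g.σ) :=
  Cl.trans (image_subset_image hY) (h1.tr g)
    (fun r hr hx => ((h.agree (iso_tr g M X Q)).1 r hx).1 hr) h2

lemma exists_perm_ext (S : Finset ℕ) (φ : ℕ → ℕ) (hφ : Set.InjOn φ S) (A B : Finset ℕ) :
    ∃ σ : Perm ℕ, (∀ v ∈ S, σ v = φ v) ∧ ∀ v ∈ A, v ∉ S → σ v ∉ B := by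
  obtain ⟨K, hK⟩ := (B ∪ S.image φ).bddAbove
  have hK' : ∀ v, v + (K + 1) ∉ B ∪ S.image φ := fun v hv => by
    have := hK (mem_coe.2 hv)
    omega
  set ψ : ℕ → ℕ := fun v => if v ∈ S then φ v else v + (K + 1) with hψ
  have hinj : Function.Injective ψ := by
    intro v w h
    simp only [hψ] at h
    split_ifs at h with h1 h2 h2
    · exact hφ h1 h2 h
    · exact absurd (mem_union_right _ (h ▸ mem_image_of_mem φ h1)) (hK' w)
    · exact absurd (mem_union_right _ (h ▸ mem_image_of_mem φ h2)) (hK' v)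
    · omega
  obtain ⟨σ, hσ⟩ := Equiv.Perm.exists_extending_pair (f := fun v : ↥(S ∪ A) => v.1)
    (g := fun v : ↥(S ∪ A) => ψ v.1) Subtype.val_injective (hinj.comp Subtype.val_injective)
  refine ⟨σ, fun v hv => ?_, fun v hv hv' hB => ?_⟩
  · rw [hσ ⟨v, mem_union_left _ hv⟩]
    exact if_pos hv
  · rw [hσ ⟨v, mem_union_right _ hv⟩] at hB
    simp only [hψ, if_neg hv'] at hB
    exact hK' v (mem_union_left _ hB)

lemma exists_perm_small (S : Finset ℕ) (n : ℕ) (h : #S ≤ n) :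
    ∃ σ : Perm ℕ, ∀ v ∈ S, σ v < n := by
  obtain ⟨σ, hσ⟩ := Equiv.Perm.exists_extending_pair (f := fun v : S => v.1)
    (g := fun v : S => (S.equivFin v : ℕ)) Subtype.val_injective
    (Fin.val_injective.comp S.equivFin.injective)
  exact ⟨σ, fun v hv => by rw [hσ ⟨v, hv⟩]; exact (S.equivFin _).2.trans_le h⟩

end Pool.Agent.H821Z.Ex
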