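import Mathlib

/-! Sparse labelled hypergraphs with hitting selections: closed sets and amalgams. -/

set_option autoImplicit false

namespace Pool.Agent.H821Z.Ex

open Finset

abbrev El := ℕ × ℕ
abbrev Edge := Fin 3 → El

/-- vertex set of an edge -/
def vs (r : Edge) : Finset ℕ := univ.image fun i => (r i).1

lemma mem_vs (r : Edge) (i : Fin 3) : (r i).1 ∈ vs r := mem_image_of_mem _ (mem_univ i)

lemma mem_vs_iff {r : Edge} {v : ℕ} : v ∈ vs r ↔ ∃ i, (r i).1 = v := by simp [vs]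

lemma vs_subset {r : Edge} {X : Finset ℕ} : vs r ⊆ X ↔ ∀ i, (r i).1 ∈ X := by
  simp [vs, subset_iff]

/-- the edges of `F` belong to `R`, leave `X` and stay in `X ∪ Y` -/
def Out (R : Set Edge) (X Y : Finset ℕ) (F : Finset Edge) : Prop :=
  ∀ r ∈ F, r ∈ R ∧ ¬ vs r ⊆ X ∧ vs r ⊆ X ∪ Y

def Cl (R : Set Edge) (X : Finset ℕ) : Prop := ∀ Y F, Y.Nonempty → Out R X Y F → #F < #Y

def Wk (R : Set Edge) (X : Finset ℕ) : Prop := ∀ Y F, Out R X Y F → #F ≤ #Y

def Sp (R : Set Edge) : Prop :=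
  ∀ (X : Finset ℕ) (F : Finset Edge), (∀ r ∈ F, r ∈ R ∧ vs r ⊆ X) → #X * 3 ^ #F < 3 ^ #X

def Ind (R : Set Edge) (A B : Finset ℕ) : Prop :=
  (∀ r ∈ R, vs r ⊆ A ∪ B → vs r ⊆ A ∨ vs r ⊆ B) ∧ Wk R (A ∪ B)

variable {R R' : Set Edge} {X Y Z A B : Finset ℕ}

lemma Cl.wk (h : Cl R X) : Wk R X := by
  intro Y F hF
  rcases Y.eq_empty_or_nonempty with rfl | hY
  · rcases F.eq_empty_or_nonempty with rfl | ⟨r, hr⟩
    · simp
    · exact absurd (by simpa using (hF r hr).2.2) (hF r hr).2.1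
  · exact (h Y F hY hF).le

lemma Cl.mono (h : Cl R X) (hR : R' ⊆ R) : Cl R' X :=
  fun Y F hY hF => h Y F hY fun r hr => ⟨hR (hF r hr).1, (hF r hr).2⟩

lemma Sp.mono (h : Sp R) (hR : R' ⊆ R) : Sp R' :=
  fun X F hF => h X F fun r hr => ⟨hR (hF r hr).1, (hF r hr).2⟩

lemma Ind.symm (h : Ind R A B) : Ind R B A := by
  unfold Ind
  rw [union_comm]
  exact ⟨fun r hr h' => (h.1 r hr h').symm, h.2⟩

lemma Cl.ind_self (h : Cl R A) : Ind R A A := by
  unfold Ind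
  rw [union_self]
  exact ⟨fun r _ h' => Or.inl h', h.wk⟩

lemma cl_of_inside (h : ∀ r ∈ R, vs r ⊆ X) : Cl R X := by
  intro Y F hY hF
  rcases F.eq_empty_or_nonempty with rfl | ⟨r, hr⟩
  · simpa using hY
  · exact absurd (h r (hF r hr).1) (hF r hr).2.1

lemma Sp.cl_empty (h : Sp R) : Cl R ∅ := by
  intro Y F hY hF
  have h1 := h Y F fun r hr => ⟨(hF r hr).1, by simpa using (hF r hr).2.2⟩
  have h2 : 1 ≤ #Y := card_pos.2 hY
  have h3 : 3 ^ #F < 3 ^ #Y := lt_of_le_of_lt (Nat.le_mul_of_pos_left _ h2) h1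
  exact (Nat.pow_lt_pow_iff_right (by norm_num)).1 h3

lemma split_card (F : Finset Edge) (P : Edge → Prop) [DecidablePred P] :
    #F = #(F.filter P) + #(F.filter fun r => ¬ P r) := (card_filter_add_card_filter_not P).symm

lemma Cl.trans (hXZ : X ⊆ Z) (h1 : Cl R' X) (h2 : ∀ r ∈ R, vs r ⊆ Z → r ∈ R') (h3 : Cl R Z) :
    Cl R X := by
  intro Y F hY hF
  have e1 := split_card F fun r => vs r ⊆ Z
  have e2 : #Y = #(Y ∩ Z) + #(Y \ Z) := (card_inter_add_card_sdiff Y Z).symm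
  have o1 : Out R' X (Y ∩ Z) (F.filter fun r => vs r ⊆ Z) := by
    intro r hr
    obtain ⟨hr, hz⟩ := mem_filter.1 hr
    refine ⟨h2 r (hF r hr).1 hz, (hF r hr).2.1, fun v hv => ?_⟩
    have := (hF r hr).2.2 hv
    have := hz hv
    simp only [mem_union, mem_inter] at *
    tauto
  have o2 : Out R Z (Y \ Z) (F.filter fun r => ¬ vs r ⊆ Z) := by
    intro r hr
    obtain ⟨hr, hz⟩ := mem_filter.1 hr
    refine ⟨(hF r hr).1, hz, fun v hv => ?_⟩
    have := (hF r hr).2.2 hv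
    have := @hXZ v
    simp only [mem_union, mem_sdiff] at *
    tauto
  have w1 := h1.wk _ _ o1
  have w2 := h3.wk _ _ o2
  rcases (Y \ Z).eq_empty_or_nonempty with h0 | h0
  · have : (Y ∩ Z).Nonempty := by
      rw [← card_pos]
      have := card_pos.2 hY
      rw [h0, card_empty] at e2
      omega
    have := h1 _ _ this o1
    omega
  · have := h3 _ _ h0 o2
    omega

lemma Cl.inter (h1 : Cl R X) (h2 : Cl R Z) : Cl R (X ∩ Z) := by
  refine Cl.trans (R' := {r | r ∈ R ∧ vs r ⊆ Z}) inter_subset_right ?_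
    (fun r hr hz => ⟨hr, hz⟩) h2
  intro Y F hY hF
  refine h1 Y F hY fun r hr => ⟨(hF r hr).1.1, fun hx => (hF r hr).2.1
    (subset_inter hx (hF r hr).1.2), fun v hv => ?_⟩
  have := (hF r hr).2.2 hv
  simp only [mem_union, mem_inter] at *
  tauto

lemma cl_three {E R1 R2 : Set Edge} {W0 W1 W2 : Finset ℕ}
    (hE : ∀ r ∈ E, ¬ vs r ⊆ W0 → vs r ⊆ W1 ∨ vs r ⊆ W2)
    (h1 : ∀ r ∈ E, vs r ⊆ W1 → r ∈ R1) (h2 : ∀ r ∈ E, vs r ⊆ W2 → r ∈ R2)
    (c10 : Cl R1 (W1 ∩ W0)) (c12 : Cl R1 (W1 ∩ W2)) (c20 : Cl R2 (W2 ∩ W0))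
    (i1 : Ind R1 (W1 ∩ W2) (W1 ∩ W0)) (i2 : Ind R2 (W2 ∩ W0) (W2 ∩ W1)) : Cl E W0 := by
  intro Y F hY hF
  have e1 := split_card F fun r => vs r ⊆ W1
  have e2 := split_card (F.filter fun r => vs r ⊆ W1) fun r => vs r ⊆ W2
  have e3 : #Y = #(Y ∩ W1) + #(Y \ W1) := (card_inter_add_card_sdiff Y W1).symm
  have e4 : #(Y ∩ W1) = #(Y ∩ W1 ∩ W2) + #((Y ∩ W1) \ W2) :=
    (card_inter_add_card_sdiff _ W2).symm
  have o3 : Out R1 ((W1 ∩ W0) ∩ (W1 ∩ W2)) (Y ∩ W1 ∩ W2)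
      ((F.filter fun r => vs r ⊆ W1).filter fun r => vs r ⊆ W2) := by
    intro r hr
    obtain ⟨hr, hz2⟩ := mem_filter.1 hr
    obtain ⟨hr, hz1⟩ := mem_filter.1 hr
    refine ⟨h1 r (hF r hr).1 hz1, fun h => (hF r hr).2.1
      (h.trans (inter_subset_left.trans inter_subset_right)), fun v hv => ?_⟩
    have := (hF r hr).2.2 hv
    have := hz1 hv
    have := hz2 hv
    simp only [mem_union, mem_inter] at *
    tauto
  have o1 : Out R1 ((W1 ∩ W2) ∪ (W1 ∩ W0)) ((Y ∩ W1) \ W2)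
      ((F.filter fun r => vs r ⊆ W1).filter fun r => ¬ vs r ⊆ W2) := by
    intro r hr
    obtain ⟨hr, hz2⟩ := mem_filter.1 hr
    obtain ⟨hr, hz1⟩ := mem_filter.1 hr
    refine ⟨h1 r (hF r hr).1 hz1, fun h => ?_, fun v hv => ?_⟩
    · rcases i1.1 r (h1 r (hF r hr).1 hz1) h with h | h
      · exact hz2 (h.trans inter_subset_right)
      · exact (hF r hr).2.1 (h.trans inter_subset_right)
    · have := (hF r hr).2.2 hv
      have := hz1 hv
      simp only [mem_union, mem_inter, mem_sdiff] at *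
      tauto
  have o2 : Out R2 ((W2 ∩ W0) ∪ (W2 ∩ W1)) (Y \ W1) (F.filter fun r => ¬ vs r ⊆ W1) := by
    intro r hr
    obtain ⟨hr, hz1⟩ := mem_filter.1 hr
    have hz2 := (hE r (hF r hr).1 (hF r hr).2.1).resolve_left hz1
    refine ⟨h2 r (hF r hr).1 hz2, fun h => ?_, fun v hv => ?_⟩
    · rcases i2.1 r (h2 r (hF r hr).1 hz2) h with h | h
      · exact (hF r hr).2.1 (h.trans inter_subset_right)
      · exact hz1 (h.trans inter_subset_right)
    · have := (hF r hr).2.2 hv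
      have := hz2 hv
      simp only [mem_union, mem_inter, mem_sdiff] at *
      tauto
  have w1 := i1.2 _ _ o1
  have w2 := i2.2 _ _ o2
  have w3 := (c10.inter c12).wk _ _ o3
  rcases (Y ∩ W1 ∩ W2).eq_empty_or_nonempty with h0 | h0
  · have hn : ∀ v, v ∈ Y → v ∈ W1 → v ∈ W2 → False := by
      intro v a1 a2 a3
      have : v ∈ Y ∩ W1 ∩ W2 := by simp [a1, a2, a3]
      rw [h0] at this
      simp at this
    have p1 : Out R1 (W1 ∩ W0) ((Y ∩ W1) \ W2)
        ((F.filter fun r => vs r ⊆ W1).filter fun r => ¬ vs r ⊆ W2) := by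
      intro r hr
      obtain ⟨hr, hz2⟩ := mem_filter.1 hr
      obtain ⟨hr, hz1⟩ := mem_filter.1 hr
      refine ⟨h1 r (hF r hr).1 hz1, fun h => (hF r hr).2.1 (h.trans inter_subset_right),
        fun v hv => ?_⟩
      have := (hF r hr).2.2 hv
      have := hz1 hv
      have := hn v
      simp only [mem_union, mem_inter, mem_sdiff] at *
      tauto
    have p2 : Out R2 (W2 ∩ W0) (Y \ W1) (F.filter fun r => ¬ vs r ⊆ W1) := by
      intro r hr
      obtain ⟨hr, hz1⟩ := mem_filter.1 hr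
      have hz2 := (hE r (hF r hr).1 (hF r hr).2.1).resolve_left hz1
      refine ⟨h2 r (hF r hr).1 hz2, fun h => (hF r hr).2.1 (h.trans inter_subset_right),
        fun v hv => ?_⟩
      have := (hF r hr).2.2 hv
      have := hz2 hv
      have := hn v
      simp only [mem_union, mem_inter, mem_sdiff] at *
      tauto
    have := card_pos.2 hY
    rw [h0, card_empty] at e4 w3
    rcases (Y \ W1).eq_empty_or_nonempty with h5 | h5
    · have h6 : ((Y ∩ W1) \ W2).Nonempty := by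
        rw [← card_pos]
        rw [h5, card_empty] at e3
        omega
      have := c10 _ _ h6 p1
      omega
    · have := c20 _ _ h5 p2
      omega
  · have := (c10.inter c12) _ _ h0 o3
    omega

lemma sp_lift {x e : ℕ} (h : x * 3 ^ e < 3 ^ x) (h0 : x = 0 → e = 0) (k : ℕ) :
    (x + k) * 3 ^ e < 3 ^ (x + k) := by
  rcases Nat.eq_zero_or_pos x with rfl | hx
  · rw [h0 rfl]
    simpa using Nat.lt_pow_self (by norm_num)
  · induction k with
    | zero => simpa using h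
    | succ k ih =>
      rw [← add_assoc, pow_succ]
      have : (x + k + 1) * 3 ^ e ≤ (x + k) * 3 ^ e * 3 := by
        rw [mul_right_comm]
        exact Nat.mul_le_mul_right _ (by omega)
      omega

lemma sp_cover {E : Set Edge} (W : Fin 3 → Finset ℕ) (hE : ∀ r ∈ E, ∃ i, vs r ⊆ W i)
    (hc : ∀ i, Cl E (W i)) (hs : ∀ i, Sp {r | r ∈ E ∧ vs r ⊆ W i}) : Sp E := by
  intro X₀ F hF
  set X := X₀ ∩ univ.biUnion W with hX
  have hFX : ∀ r ∈ F, vs r ⊆ X := by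
    intro r hr
    obtain ⟨i, hi⟩ := hE r (hF r hr).1
    exact subset_inter (hF r hr).2 (hi.trans (subset_biUnion_of_mem W (mem_univ i)))
  suffices h : #X * 3 ^ #F < 3 ^ #X by
    have e : #X₀ = #X + #(X₀ \ univ.biUnion W) := (card_inter_add_card_sdiff _ _).symm
    rw [e]
    refine sp_lift h (fun h0 => ?_) _
    rw [card_eq_zero] at h0 ⊢
    rcases F.eq_empty_or_nonempty with h1 | ⟨r, hr⟩
    · exact h1
    · have := hFX r hr (mem_vs r 0)
      rw [h0] at this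
      simp at this
  obtain ⟨i, -, hi⟩ := exists_max_image univ (fun i => #(X ∩ W i)) univ_nonempty
  have h1 : #X ≤ 3 * #(X ∩ W i) := by
    have : X ⊆ univ.biUnion fun j => X ∩ W j := by
      intro v hv
      obtain ⟨j, -, hj⟩ := mem_biUnion.1 (mem_inter.1 hv).2
      exact mem_biUnion.2 ⟨j, mem_univ _, mem_inter.2 ⟨hv, hj⟩⟩
    refine (card_le_card this).trans (card_biUnion_le.trans ?_)
    refine (sum_le_sum fun j _ => hi j (mem_univ j)).trans ?_
    simp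
  have e1 := split_card F fun r => vs r ⊆ W i
  have e2 : #X = #(X ∩ W i) + #(X \ W i) := (card_inter_add_card_sdiff _ _).symm
  have h2 := hs i (X ∩ W i) (F.filter fun r => vs r ⊆ W i) fun r hr =>
    ⟨⟨(hF r (mem_filter.1 hr).1).1, (mem_filter.1 hr).2⟩,
      subset_inter (hFX r (mem_filter.1 hr).1) (mem_filter.1 hr).2⟩
  have o : Out E (W i) (X \ W i) (F.filter fun r => ¬ vs r ⊆ W i) := by
    intro r hr
    obtain ⟨hr, hz⟩ := mem_filter.1 hr
    refine ⟨(hF r hr).1, hz, fun v hv => ?_⟩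
    have := hFX r hr hv
    simp only [mem_union, mem_sdiff]
    tauto
  rcases (X \ W i).eq_empty_or_nonempty with h0 | h0
  · have := (hc i).wk _ _ o
    rw [h0, card_empty] at this e2
    rw [e1, e2, Nat.le_zero.1 this]
    simpa using h2
  · have h3 := hc i _ _ h0 o
    calc #X * 3 ^ #F ≤ (3 * #(X ∩ W i)) * 3 ^ #F := Nat.mul_le_mul_right _ h1
      _ = (#(X ∩ W i) * 3 ^ #(F.filter fun r => vs r ⊆ W i)) *
          3 ^ (#(F.filter fun r => ¬ vs r ⊆ W i) + 1) := by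
        rw [e1]; ring
      _ < 3 ^ #(X ∩ W i) * 3 ^ (#(F.filter fun r => ¬ vs r ⊆ W i) + 1) :=
        Nat.mul_lt_mul_of_pos_right h2 (by positivity)
      _ ≤ 3 ^ #(X ∩ W i) * 3 ^ #(X \ W i) :=
        Nat.mul_le_mul_left _ (Nat.pow_le_pow_right (by norm_num) h3)
      _ = 3 ^ #X := by rw [← pow_add, ← e2]

lemma extend_sel {U : Finset ℕ} (hW : Wk R U) (s : ℕ → ℕ)
    (hs : ∀ r ∈ R, vs r ⊆ U → ∃ i, s (r i).1 = (r i).2) :
    ∃ s' : ℕ → ℕ, (∀ v ∈ U, s' v = s v) ∧ ∀ r ∈ R, ∃ i, s' (r i).1 = (r i).2 := by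
  classical
  obtain ⟨φ, hφ, hφ'⟩ := (all_card_le_biUnion_card_iff_exists_injective
    (fun r : {r : Edge // r ∈ R ∧ ¬ vs r ⊆ U} => vs r.1 \ U)).1 (by
      intro S
      have := hW (S.biUnion fun r => vs r.1 \ U) (S.image Subtype.val) (by
        intro r' hr'
        obtain ⟨r, hr, rfl⟩ := mem_image.1 hr'
        refine ⟨r.2.1, r.2.2, fun v hv => ?_⟩
        by_cases h : v ∈ U
        · exact mem_union_left _ h
        · exact mem_union_right _ (mem_biUnion.2 ⟨r, hr, mem_sdiff.2 ⟨hv, h⟩⟩))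
      rwa [card_image_of_injective _ Subtype.val_injective] at this)
  have hi : ∀ r : {r : Edge // r ∈ R ∧ ¬ vs r ⊆ U}, ∃ i, (r.1 i).1 = φ r := fun r =>
    mem_vs_iff.1 (mem_sdiff.1 (hφ' r)).1
  choose idx hidx using hi
  refine ⟨fun v => if h : ∃ r, φ r = v then (h.choose.1 (idx h.choose)).2 else s v, ?_, ?_⟩
  · intro v hv
    beta_reduce
    rw [dif_neg]
    rintro ⟨r, rfl⟩
    exact (mem_sdiff.1 (hφ' r)).2 hv
  · intro r hr
    by_cases hU : vs r ⊆ U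
    · obtain ⟨i, hi⟩ := hs r hr hU
      refine ⟨i, ?_⟩
      beta_reduce
      rw [dif_neg, hi]
      rintro ⟨r', hr'⟩
      exact (mem_sdiff.1 (hφ' r')).2 (hr' ▸ hU (mem_vs r i))
    · refine ⟨idx ⟨r, hr, hU⟩, ?_⟩
      have h : ∃ r', φ r' = (r (idx ⟨r, hr, hU⟩)).1 := ⟨⟨r, hr, hU⟩, (hidx ⟨r, hr, hU⟩).symm⟩
      beta_reduce
      rw [dif_pos h]
      have : h.choose = ⟨r, hr, hU⟩ := hφ (h.choose_spec.trans (hidx ⟨r, hr, hU⟩))
      rw [this]

/-- labelled hypergraph with selections -/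
structure Str where
  R : Set Edge
  f : ℕ → ℕ → ℕ

def Hit (N : Str) : Prop := ∀ p, ∀ r ∈ N.R, ∃ i, N.f p (r i).1 = (r i).2

def Agree (M N : Str) (X Q : Finset ℕ) : Prop :=
  (∀ r, vs r ⊆ X → (r ∈ M.R ↔ r ∈ N.R)) ∧ ∀ p ∈ Q, ∀ v ∈ X, M.f p v = N.f p v

lemma Agree.symm {M N : Str} {Q : Finset ℕ} (h : Agree M N X Q) : Agree N M X Q :=
  ⟨fun r hr => (h.1 r hr).symm, fun p hp v hv => (h.2 p hp v hv).symm⟩

lemma Agree.trans {M N L : Str} {Q : Finset ℕ} (h : Agree M N X Q) (h' : Agree N L X Q) :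
    Agree M L X Q :=
  ⟨fun r hr => (h.1 r hr).trans (h'.1 r hr), fun p hp v hv => (h.2 p hp v hv).trans (h'.2 p hp v hv)⟩

lemma Agree.mono {M N : Str} {Q Q' : Finset ℕ} (h : Agree M N X Q) (hX : Y ⊆ X) (hQ : Q' ⊆ Q) :
    Agree M N Y Q' :=
  ⟨fun r hr => h.1 r (hr.trans hX), fun p hp v hv => h.2 p (hQ hp) v (hX hv)⟩

lemma Agree.refl (M : Str) (X Q : Finset ℕ) : Agree M M X Q :=
  ⟨fun _ _ => Iff.rfl, fun _ _ _ _ => rfl⟩

theorem amalgam (N : Fin 3 → Str) (W Q : Fin 3 → Finset ℕ) (hSp : ∀ i, Sp (N i).R)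
    (hHit : ∀ i, Hit (N i)) (hAg : ∀ i j, Agree (N i) (N j) (W i ∩ W j) (Q i ∩ Q j))
    (hCl : ∀ i j, i ≠ j → Cl (N i).R (W i ∩ W j))
    (hInd : ∀ i j k, i ≠ j → i ≠ k → j ≠ k → Ind (N i).R (W i ∩ W j) (W i ∩ W k)) :
    ∃ E : Str, Sp E.R ∧ Hit E ∧ (∀ r ∈ E.R, ∃ i, vs r ⊆ W i) ∧
      ∀ i, Agree E (N i) (W i) (Q i) ∧ Cl E.R (W i) := by
  classical
  set E : Set Edge := {r | ∃ i, r ∈ (N i).R ∧ vs r ⊆ W i} with hE
  have hE1 : ∀ r ∈ E, ∃ i, vs r ⊆ W i := fun r ⟨i, _, hi⟩ => ⟨i, hi⟩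
  have hE2 : ∀ i, ∀ r ∈ E, vs r ⊆ W i → r ∈ (N i).R := fun i r ⟨j, h1, h2⟩ hi =>
    ((hAg j i).1 r (subset_inter h2 hi)).1 h1
  have t1 : ∀ i j : Fin 3, j = i ∨ j = i + 1 ∨ j = i + 2 := by decide
  have t2 : ∀ i : Fin 3, i + 1 ≠ i ∧ i + 2 ≠ i ∧ i + 1 ≠ i + 2 := by decide
  have hc : ∀ i, Cl E (W i) := by
    intro i
    obtain ⟨a1, a2, a3⟩ := t2 i
    refine cl_three (W1 := W (i + 1)) (W2 := W (i + 2)) ?_ (hE2 _) (hE2 _) (hCl _ _ a1)
      (hCl _ _ a3) (hCl _ _ a2) (hInd _ _ _ a3 a1 a2) (hInd _ _ _ a2 a3.symm a1.symm)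
    intro r hr h
    obtain ⟨j, hj⟩ := hE1 r hr
    rcases t1 i j with rfl | rfl | rfl
    · exact absurd hj h
    · exact Or.inl hj
    · exact Or.inr hj
  have hs : Sp E := sp_cover W hE1 hc fun i => (hSp i).mono fun r hr => hE2 i r hr.1 hr.2
  have hU : ∀ I : Finset (Fin 3), Wk E (I.biUnion W) ∧
      ∀ r ∈ E, vs r ⊆ I.biUnion W → ∃ i ∈ I, vs r ⊆ W i := by
    intro I
    have t3 : ∀ I : Finset (Fin 3), I = ∅ ∨ I = univ ∨ ∃ i, I = {i} ∨ I = {i + 1, i + 2} := by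
      decide
    rcases t3 I with rfl | rfl | ⟨i, rfl | rfl⟩
    · refine ⟨by simpa using hs.cl_empty.wk, fun r _ h => ?_⟩
      have := h (mem_vs r 0)
      simp at this
    · refine ⟨(cl_of_inside fun r hr => ?_).wk, fun r hr _ => ?_⟩
      · obtain ⟨j, hj⟩ := hE1 r hr
        exact hj.trans (subset_biUnion_of_mem W (mem_univ j))
      · obtain ⟨j, hj⟩ := hE1 r hr
        exact ⟨j, mem_univ _, hj⟩
    · rw [singleton_biUnion]
      exact ⟨(hc i).wk, fun r _ h => ⟨i, mem_singleton_self i, h⟩⟩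
    · obtain ⟨a1, a2, a3⟩ := t2 i
      have hI := hInd i (i + 1) (i + 2) a1.symm a2.symm a3
      have e : ({i + 1, i + 2} : Finset (Fin 3)).biUnion W = W (i + 1) ∪ W (i + 2) := by
        rw [biUnion_insert, singleton_biUnion]
      rw [e]
      constructor
      · intro Y F hF
        have hin : ∀ r ∈ F, vs r ⊆ W i := by
          intro r hr
          obtain ⟨j, hj⟩ := hE1 r (hF r hr).1
          rcases t1 i j with rfl | rfl | rfl
          · exact hj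
          · exact absurd (hj.trans subset_union_left) (hF r hr).2.1
          · exact absurd (hj.trans subset_union_right) (hF r hr).2.1
        refine hI.2 Y F fun r hr => ⟨hE2 i r (hF r hr).1 (hin r hr), fun h => (hF r hr).2.1
          (h.trans (union_subset_union inter_subset_right inter_subset_right)), fun v hv => ?_⟩
        have := (hF r hr).2.2 hv
        have := hin r hr hv
        simp only [mem_union, mem_inter] at *
        tauto
      · intro r hr h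
        obtain ⟨j, hj⟩ := hE1 r hr
        rcases t1 i j with rfl | rfl | rfl
        · rcases hI.1 r (hE2 _ r hr hj) (by
            rw [← inter_union_distrib_left]
            exact subset_inter hj h) with h' | h'
          · exact ⟨_, by simp, h'.trans inter_subset_right⟩
          · exact ⟨_, by simp, h'.trans inter_subset_right⟩
        · exact ⟨_, by simp, hj⟩
        · exact ⟨_, by simp, hj⟩
  have hf : ∀ p, ∃ s : ℕ → ℕ, (∀ i, p ∈ Q i → ∀ v ∈ W i, s v = (N i).f p v) ∧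
      ∀ r ∈ E, ∃ i, s (r i).1 = (r i).2 := by
    intro p
    set s : ℕ → ℕ := fun v => if h : ∃ i, p ∈ Q i ∧ v ∈ W i then (N h.choose).f p v else 0 with hs'
    have hs1 : ∀ i, p ∈ Q i → ∀ v ∈ W i, s v = (N i).f p v := by
      intro i hp v hv
      have h : ∃ i, p ∈ Q i ∧ v ∈ W i := ⟨i, hp, hv⟩
      simp only [hs', dif_pos h]
      exact (hAg _ i).2 p (mem_inter.2 ⟨h.choose_spec.1, hp⟩) v (mem_inter.2 ⟨h.choose_spec.2, hv⟩)
    obtain ⟨s', h1, h2⟩ := extend_sel (hU {i | p ∈ Q i}).1 s (by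
      intro r hr h
      obtain ⟨i, hi, hi'⟩ := (hU _).2 r hr h
      obtain ⟨k, hk⟩ := hHit i p r (hE2 i r hr hi')
      exact ⟨k, (hs1 i (mem_filter.1 hi).2 _ (hi' (mem_vs r k))).trans hk⟩)
    refine ⟨s', fun i hp v hv => ?_, h2⟩
    rw [h1 v (mem_biUnion.2 ⟨i, mem_filter.2 ⟨mem_univ _, hp⟩, hv⟩), hs1 i hp v hv]
  choose f hf1 hf2 using hf
  exact ⟨⟨E, f⟩, hs, hf2, hE1, fun i => ⟨⟨fun r hr => ⟨fun h => hE2 i r h hr, fun h => ⟨i, h, hr⟩⟩,
    fun p hp v hv => hf1 p i hp v hv⟩, hc i⟩⟩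

end Pool.Agent.H821Z.Ex
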