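import Mathlib

/-! Dividing, forking, `SOP₁`, `SOP` and countable categoricity. -/

set_option autoImplicit false

namespace Pool.Agent.H821Z.Ex

open FirstOrder FirstOrder.Language

universe w

/-- The sequence `s` of `m`-tuples is indiscernible over `A`: increasing subsequences of the same
finite length satisfy the same formulas with parameters from `A`. -/
def Indiscernible (L : FirstOrder.Language.{0, 0}) (M : Type w) [L.Structure M] (A : Set M) {m : ℕ}
    (s : ℕ → Fin m → M) : Prop :=
  ∀ (k l : ℕ) (ψ : L.Formula ((Fin k × Fin m) ⊕ Fin l)) (c : Fin l → M), (∀ i, c i ∈ A) →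
    ∀ u v : Fin k → ℕ, StrictMono u → StrictMono v →
      (ψ.Realize (Sum.elim (fun z => s (u z.1) z.2) c) ↔
        ψ.Realize (Sum.elim (fun z => s (v z.1) z.2) c))

/-- `φ(x; b)` divides over `A`: some `A`-indiscernible sequence starting with `b` makes the set of
the `φ(x; s i)` inconsistent (a finite part of it has no solution). -/
def Divides (L : FirstOrder.Language.{0, 0}) (M : Type w) [L.Structure M] (A : Set M) {n m : ℕ}
    (φ : L.Formula (Fin n ⊕ Fin m)) (b : Fin m → M) : Prop :=
  ∃ s : ℕ → Fin m → M, s 0 = b ∧ Indiscernible L M A s ∧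
    ∃ k : ℕ, ¬∃ x : Fin n → M, ∀ i < k, φ.Realize (Sum.elim x (s i))

/-- `φ(x; b)` forks over `A`: it implies a finite disjunction of formulas dividing over `A`. -/
def Forks (L : FirstOrder.Language.{0, 0}) (M : Type w) [L.Structure M] (A : Set M) {n m : ℕ}
    (φ : L.Formula (Fin n ⊕ Fin m)) (b : Fin m → M) : Prop :=
  ∃ (k : ℕ) (l : Fin k → ℕ) (ψ : ∀ j, L.Formula (Fin n ⊕ Fin (l j))) (c : ∀ j, Fin (l j) → M),
    (∀ j, Divides L M A (ψ j) (c j)) ∧
      ∀ x : Fin n → M, φ.Realize (Sum.elim x b) → ∃ j, (ψ j).Realize (Sum.elim x (c j))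

/-- The complete type `tp(a / A)` forks over `A`: it contains a formula forking over `A`. -/
def TypeForks (L : FirstOrder.Language.{0, 0}) (M : Type w) [L.Structure M] (A : Set M) {n : ℕ}
    (a : Fin n → M) : Prop :=
  ∃ (m : ℕ) (φ : L.Formula (Fin n ⊕ Fin m)) (c : Fin m → M), (∀ i, c i ∈ A) ∧
    φ.Realize (Sum.elim a c) ∧ Forks L M A φ c

/-- Some formula has `SOP₁` with parameters in `M`: branches are finitely satisfiable, and
`φ(x; b ν)`, `φ(x; b (η⌢1))` are inconsistent when `ν` extends `η⌢0`. -/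
def HasSOP1 (L : FirstOrder.Language.{0, 0}) (M : Type w) [L.Structure M] : Prop :=
  ∃ (n m : ℕ) (φ : L.Formula (Fin n ⊕ Fin m)) (b : List Bool → Fin m → M),
    (∀ (σ : ℕ → Bool) (k : ℕ), ∃ x : Fin n → M, ∀ i < k,
      φ.Realize (Sum.elim x (b (List.ofFn fun j : Fin i => σ j)))) ∧
    ∀ η ν : List Bool, η ++ [false] <+: ν →
      ¬∃ x : Fin n → M, φ.Realize (Sum.elim x (b ν)) ∧ φ.Realize (Sum.elim x (b (η ++ [true])))

/-- Some formula has the strict order property with parameters in `M`. -/
def HasSOP (L : FirstOrder.Language.{0, 0}) (M : Type w) [L.Structure M] : Prop :=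
  ∃ (n m : ℕ) (φ : L.Formula (Fin n ⊕ Fin m)) (b : ℕ → Fin m → M), ∀ i,
    {x : Fin n → M | φ.Realize (Sum.elim x (b i))} ⊂ {x | φ.Realize (Sum.elim x (b (i + 1)))}

/-- The language is countable and `T` has exactly one countable model up to isomorphism, which is
infinite. -/
def CountablyCategorical (L : FirstOrder.Language.{0, 0}) (T : L.Theory) : Prop :=
  Countable L.Symbols ∧ (∃ M : Theory.ModelType.{0, 0, 0} T, Countable M ∧ Infinite M) ∧
    ∀ M N : Theory.ModelType.{0, 0, 0} T, Countable M → Countable N → Nonempty (M ≃[L] N)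

end Pool.Agent.H821Z.Ex
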