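import Pool.Agent.H821Z.Ex.Act

/-! Predimension, closure and independence in a sparse hypergraph. -/

set_option autoImplicit false

namespace Pool.Agent.H821Z.Ex

open Finset

variable {R : Set Edge} {X Y Z A B D T : Finset ℕ}

lemma Sp.card_le (h : Sp R) {F : Finset Edge} (hF : ∀ r ∈ F, r ∈ R ∧ vs r ⊆ X) : #F ≤ #X :=
  h.cl_empty.wk X F fun r hr => ⟨(hF r hr).1, fun h' => by simpa using h' (mem_vs r 0),
    by simpa using (hF r hr).2⟩

lemma Sp.finite (h : Sp R) (X : Finset ℕ) : {r | r ∈ R ∧ vs r ⊆ X}.Finite := by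
  by_contra hc
  obtain ⟨F, hF, hc⟩ := Set.Infinite.exists_subset_card_eq hc (#X + 1)
  have := h.card_le (X := X) (F := F) fun r hr => hF hr
  omega

/-- the edges inside `X` -/
noncomputable def ed (h : Sp R) (X : Finset ℕ) : Finset Edge := (h.finite X).toFinset

lemma mem_ed {h : Sp R} {r : Edge} : r ∈ ed h X ↔ r ∈ R ∧ vs r ⊆ X := by simp [ed]

lemma ed_mono (h : Sp R) (hX : X ⊆ Y) : ed h X ⊆ ed h Y :=
  fun _ hr => mem_ed.2 ⟨(mem_ed.1 hr).1, (mem_ed.1 hr).2.trans hX⟩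

lemma ed_card (h : Sp R) (X : Finset ℕ) : #(ed h X) ≤ #X := h.card_le fun _ hr => mem_ed.1 hr

/-- the predimension -/
noncomputable def δ (h : Sp R) (X : Finset ℕ) : ℕ := #X - #(ed h X)

lemma δ_eq (h : Sp R) (X : Finset ℕ) : δ h X + #(ed h X) = #X := by
  have := ed_card h X
  unfold δ
  omega

lemma card_lt_pow (h : Sp R) (X : Finset ℕ) : #X < 3 ^ δ h X := by
  have h1 := h X (ed h X) fun _ hr => mem_ed.1 hr
  conv at h1 => rhs; rw [← δ_eq h X, pow_add]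
  exact lt_of_mul_lt_mul_right h1 (Nat.zero_le _)

lemma δ_sub (h : Sp R) (X Y : Finset ℕ) :
    δ h (X ∪ Y) + δ h (X ∩ Y) + #(ed h (X ∪ Y) \ (ed h X ∪ ed h Y)) = δ h X + δ h Y := by
  have e1 := δ_eq h (X ∪ Y)
  have e2 := δ_eq h (X ∩ Y)
  have e3 := δ_eq h X
  have e4 := δ_eq h Y
  have e5 := card_union_add_card_inter X Y
  have e6 := card_union_add_card_inter (ed h X) (ed h Y)
  have e7 : ed h X ∩ ed h Y = ed h (X ∩ Y) := by
    ext r
    simp only [mem_inter, mem_ed, subset_inter_iff]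
    tauto
  have e8 := card_sdiff_add_card_eq_card (union_subset (ed_mono h (subset_union_left (s₁ := X)
    (s₂ := Y))) (ed_mono h subset_union_right))
  rw [e7] at e6
  omega

lemma out_ed (h : Sp R) (hX : X ⊆ Y) : Out R X (Y \ X) (ed h Y \ ed h X) := by
  intro r hr
  simp only [mem_sdiff, mem_ed] at hr
  rw [union_sdiff_of_subset hX]
  tauto

lemma Wk.δ_le (h : Sp R) (hW : Wk R X) (hX : X ⊆ Y) : δ h X ≤ δ h Y := by
  have := hW _ _ (out_ed h hX)
  have e1 := card_sdiff_add_card_eq_card hX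
  have e2 := card_sdiff_add_card_eq_card (ed_mono h hX)
  have e3 := δ_eq h X
  have e4 := δ_eq h Y
  omega

lemma Cl.δ_lt (h : Sp R) (hW : Cl R X) (hX : X ⊆ Y) (hn : ¬ Y ⊆ X) : δ h X < δ h Y := by
  have := hW _ _ (sdiff_nonempty.2 hn) (out_ed h hX)
  have e1 := card_sdiff_add_card_eq_card hX
  have e2 := card_sdiff_add_card_eq_card (ed_mono h hX)
  have e3 := δ_eq h X
  have e4 := δ_eq h Y
  omega

lemma out_card (h : Sp R) {F : Finset Edge} (hF : Out R X Y F) :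
    #F + δ h (X ∪ Y) ≤ #(Y \ X) + δ h X := by
  have e0 : F ⊆ ed h (X ∪ Y) \ ed h X := by
    intro r hr
    have := hF r hr
    simp only [mem_sdiff, mem_ed]
    tauto
  have := card_le_card e0
  have e1 := card_sdiff_add_card Y X
  rw [union_comm] at e1
  have e2 := card_sdiff_add_card_eq_card (ed_mono h (subset_union_left (s₁ := X) (s₂ := Y)))
  have e3 := δ_eq h X
  have e4 := δ_eq h (X ∪ Y)
  omega

lemma wk_of_δ (h : Sp R) (hX : ∀ Y, X ⊆ Y → δ h X ≤ δ h Y) : Wk R X := by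
  intro Y F hF
  have := out_card h hF
  have := hX _ (subset_union_left (s₂ := Y))
  have := card_le_card (sdiff_subset (s := Y) (t := X))
  omega

lemma cl_of_δ (h : Sp R) (hX : ∀ Y, X ⊆ Y → ¬ Y ⊆ X → δ h X < δ h Y) : Cl R X := by
  intro Y F hY hF
  have := out_card h hF
  have := card_le_card (sdiff_subset (s := Y) (t := X))
  by_cases hc : Y ⊆ X
  · rw [sdiff_eq_empty_iff_subset.2 hc, union_eq_left.2 hc, card_empty] at *
    have := card_pos.2 hY
    omega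
  · have := hX _ (subset_union_left (s₂ := Y)) fun h' => hc (subset_union_right.trans h')
    omega

lemma exists_cl (h : Sp R) (X : Finset ℕ) :
    ∃ Z, X ⊆ Z ∧ Cl R Z ∧ ∀ Y, X ⊆ Y → δ h Z ≤ δ h Y := by
  classical
  have h1 : ∃ d, ∃ Z, X ⊆ Z ∧ δ h Z = d := ⟨_, X, Subset.rfl, rfl⟩
  have h2 : ∀ Y, X ⊆ Y → Nat.find h1 ≤ δ h Y := fun Y hY => Nat.find_min' h1 ⟨Y, hY, rfl⟩
  have h3 : ∃ k, ∃ Z, X ⊆ Z ∧ δ h Z = Nat.find h1 ∧ 3 ^ Nat.find h1 - #Z = k := by
    obtain ⟨Z, a, b⟩ := Nat.find_spec h1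
    exact ⟨_, Z, a, b, rfl⟩
  obtain ⟨Z, a, b, c⟩ := Nat.find_spec h3
  refine ⟨Z, a, cl_of_δ h fun Y hY hn => ?_, fun Y hY => b ▸ h2 Y hY⟩
  have e1 := h2 Y (a.trans hY)
  by_contra hc
  have e2 : δ h Y = Nat.find h1 := by omega
  have e3 := Nat.find_min' h3 ⟨Y, a.trans hY, e2, rfl⟩
  have e4 := card_lt_pow h Y
  have e5 := card_lt_card (Finset.ssubset_iff_subset_ne.2 ⟨hY, fun h' => hn (h' ▸ Subset.rfl)⟩)
  rw [e2] at e4
  omega

/-- the closure -/
noncomputable def cl (h : Sp R) (X : Finset ℕ) : Finset ℕ := (exists_cl h X).choose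

lemma subset_cl (h : Sp R) (X : Finset ℕ) : X ⊆ cl h X := (exists_cl h X).choose_spec.1

lemma cl_cl (h : Sp R) (X : Finset ℕ) : Cl R (cl h X) := (exists_cl h X).choose_spec.2.1

lemma δ_cl_le (h : Sp R) (hY : X ⊆ Y) : δ h (cl h X) ≤ δ h Y :=
  (exists_cl h X).choose_spec.2.2 Y hY

lemma cl_min (h : Sp R) (hY : X ⊆ Y) (hc : Cl R Y) : cl h X ⊆ Y := by
  by_contra hn
  have e1 := hc.δ_lt h (subset_union_right (s₁ := cl h X))
    fun h' => hn (subset_union_left.trans h')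
  have e2 := δ_sub h (cl h X) Y
  have e3 := δ_cl_le h (subset_inter (subset_cl h X) hY)
  omega

lemma card_cl (h : Sp R) (X : Finset ℕ) : #(cl h X) ≤ 3 ^ #X := by
  have e1 := card_lt_pow h (cl h X)
  have e2 := δ_cl_le h (Subset.rfl (s := X))
  have e3 := δ_eq h X
  exact e1.le.trans (Nat.pow_le_pow_right (by norm_num) (by omega))

/-- relative dimension -/
noncomputable def rel (h : Sp R) (T B : Finset ℕ) : ℕ := δ h (cl h (T ∪ B)) - δ h B

lemma rel_le (h : Sp R) (T B : Finset ℕ) : rel h T B ≤ #T := by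
  have e1 := δ_cl_le h (Subset.rfl (s := T ∪ B))
  have e2 := δ_sub h T B
  have e3 := δ_eq h T
  unfold rel
  omega

lemma rel_main (h : Sp R) (hD : Cl R D) (hB : Cl R B) (hDB : D ⊆ B) :
    rel h T B ≤ rel h T D ∧
      (rel h T D ≤ rel h T B → cl h (T ∪ D) ∩ B ⊆ D ∧ Ind R (cl h (T ∪ D)) B) := by
  have a1 : T ∪ B ⊆ cl h (T ∪ D) ∪ B :=
    union_subset_union (subset_union_left.trans (subset_cl h _)) Subset.rfl
  have a2 : D ⊆ cl h (T ∪ D) := subset_union_right.trans (subset_cl h _)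
  have e1 := δ_cl_le h a1
  have e2 := δ_sub h (cl h (T ∪ D)) B
  have e3 := hD.wk.δ_le h (subset_inter a2 hDB)
  have e4 := hD.wk.δ_le h a2
  have e5 := hB.wk.δ_le h (subset_union_right.trans (subset_cl h (T ∪ B)))
  unfold rel
  refine ⟨by omega, fun h1 => ⟨?_, fun r hr h2 => ?_, wk_of_δ h fun Y hY => ?_⟩⟩
  · by_contra hn
    have := hD.δ_lt h (subset_inter a2 hDB) hn
    omega
  · have e6 : #(ed h (cl h (T ∪ D) ∪ B) \ (ed h (cl h (T ∪ D)) ∪ ed h B)) = 0 := by omega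
    rw [card_eq_zero, sdiff_eq_empty_iff_subset] at e6
    rcases mem_union.1 (e6 (mem_ed.2 ⟨hr, h2⟩)) with h3 | h3
    · exact Or.inl (mem_ed.1 h3).2
    · exact Or.inr (mem_ed.1 h3).2
  · have := δ_cl_le h (a1.trans hY)
    omega

end Pool.Agent.H821Z.Ex
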