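import Pool.Agent.H821Z.Ex.Dim

/-! The generic structure. -/

set_option autoImplicit false

namespace Pool.Agent.H821Z.Ex

open Finset Equiv

def Rich (M : Str) : Prop :=
  ∀ (N : Str) (X X' Q Q' : Finset ℕ), X ⊆ X' → Q ⊆ Q' → Sp N.R → Hit N → Cl M.R X → Cl N.R X →
    Agree M N X Q → ∃ h : G, (∀ c : El, c.1 ∈ X → h.γ c = c) ∧ (∀ p ∈ Q, h.ρ p = p) ∧
      Cl M.R (X'.image h.σ) ∧ Iso h N M X' Q'

/-- finite stages -/
structure St where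
  X : Finset ℕ
  Q : Finset ℕ
  N : Str
  sp : Sp N.R
  hit : Hit N
  ins : ∀ r ∈ N.R, vs r ⊆ X

def St.le (s t : St) : Prop := s.X ⊆ t.X ∧ s.Q ⊆ t.Q ∧ Agree s.N t.N s.X s.Q ∧ Cl t.N.R s.X

lemma St.le_refl (s : St) : s.le s :=
  ⟨Subset.rfl, Subset.rfl, Agree.refl _ _ _, cl_of_inside s.ins⟩

lemma St.le_trans {s t u : St} (h : s.le t) (h' : t.le u) : s.le u :=
  ⟨h.1.trans h'.1, h.2.1.trans h'.2.1, h.2.2.1.trans (h'.2.2.1.mono h.1 h.2.1),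
    Cl.trans h.1 h.2.2.2 (fun r hr hx => (h'.2.2.1.1 r hx).2 hr) h'.2.2.2⟩

def St.add (s : St) (n : ℕ) : St :=
  ⟨insert n s.X, insert n s.Q, s.N, s.sp, s.hit, fun r hr => (s.ins r hr).trans (subset_insert _ _)⟩

lemma St.le_add (s : St) (n : ℕ) : s.le (s.add n) :=
  ⟨subset_insert _ _, subset_insert _ _, Agree.refl _ _ _, cl_of_inside s.ins⟩

lemma image_inter_of_move {σ : Perm ℕ} {X X' W : Finset ℕ} (hX : X ⊆ X') (hW : X ⊆ W)
    (h1 : ∀ v ∈ X, σ v = v) (h2 : ∀ v ∈ X', v ∉ X → σ v ∉ W) : W ∩ X'.image σ = X := by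
  ext v
  simp only [mem_inter, mem_image]
  constructor
  · rintro ⟨hv, w, hw, rfl⟩
    by_cases h : w ∈ X
    · rwa [h1 w h]
    · exact absurd hv (h2 w hw h)
  · exact fun hv => ⟨hW hv, v, hX hv, h1 v hv⟩

lemma image_of_fix {σ : Perm ℕ} {X : Finset ℕ} (h1 : ∀ v ∈ X, σ v = v) : X.image σ = X := by
  rw [image_congr (g := id) fun v hv => h1 v hv, image_id]

lemma St.step (s : St) (N : Str) (X X' Q Q' : Finset ℕ) (hX : X ⊆ X') (hQ : Q ⊆ Q')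
    (hsp : Sp N.R) (hhit : Hit N) (h1 : Cl s.N.R X) (h2 : Cl N.R X) (h3 : Agree s.N N X Q)
    (hXs : X ⊆ s.X) (hQs : Q ⊆ s.Q) :
    ∃ t : St, s.le t ∧ ∃ h : G, (∀ c : El, c.1 ∈ X → h.γ c = c) ∧ (∀ p ∈ Q, h.ρ p = p) ∧
      X'.image h.σ ⊆ t.X ∧ Q'.image h.ρ ⊆ t.Q ∧ Cl t.N.R (X'.image h.σ) ∧ Iso h N t.N X' Q' := by
  obtain ⟨σ, a1, a2⟩ := exists_perm_ext X id (Set.injOn_id _) X' s.X
  obtain ⟨ρ, b1, b2⟩ := exists_perm_ext Q id (Set.injOn_id _) Q' s.Q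
  set h := G.of σ (fun _ => 1) ρ with hh
  have hfix : ∀ c : El, c.1 ∈ X → h.γ c = c := fun c hc => Prod.ext (a1 _ hc) rfl
  have e1 : s.X ∩ X'.image σ = X := image_inter_of_move hX hXs a1 a2
  have e2 : s.Q ∩ Q'.image ρ = Q := image_inter_of_move hQ hQs b1 b2
  have e3 : X ⊆ X'.image σ := e1 ▸ inter_subset_right
  have e4 : Q ⊆ Q'.image ρ := e2 ▸ inter_subset_right
  have c1 : Cl (tr h N).R X := by
    have := h2.tr h
    rwa [show X.image h.σ = X from image_of_fix a1] at this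
  have g1 : Agree s.N (tr h N) X Q := h3.trans ((iso_tr h N X Q).agree_of_fix hfix b1)
  have hW : ∀ i j : Fin 3, i ≠ j → ![s.X, X'.image σ, X] i ∩ ![s.X, X'.image σ, X] j = X := by
    intro i j hij
    fin_cases i <;> fin_cases j <;>
      simp_all [inter_comm (X'.image σ) s.X, inter_eq_left.2, inter_eq_right.2]
  have hQ' : ∀ i j : Fin 3, i ≠ j → ![s.Q, Q'.image ρ, Q] i ∩ ![s.Q, Q'.image ρ, Q] j = Q := by
    intro i j hij
    fin_cases i <;> fin_cases j <;>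
      simp_all [inter_comm (Q'.image ρ) s.Q, inter_eq_left.2, inter_eq_right.2]
  have hc : ∀ i : Fin 3, Cl (![s.N, tr h N, s.N] i).R X := by
    intro i
    fin_cases i
    exacts [h1, c1, h1]
  obtain ⟨E, f1, f2, f3, f4⟩ := amalgam ![s.N, tr h N, s.N] ![s.X, X'.image σ, X]
    ![s.Q, Q'.image ρ, Q] (by
      intro i
      fin_cases i
      exacts [s.sp, hsp.tr h, s.sp]) (by
      intro i
      fin_cases i
      exacts [s.hit, hhit.tr h, s.hit]) (by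
      intro i j
      by_cases hij : i = j
      · rw [hij]
        exact Agree.refl _ _ _
      · rw [hW i j hij, hQ' i j hij]
        fin_cases i <;> fin_cases j <;>
          first | exact Agree.refl _ _ _ | exact g1 | exact g1.symm)
    (fun i j hij => by rw [hW i j hij]; exact hc i)
    (fun i j k hij hik _ => by rw [hW i j hij, hW i k hik]; exact (hc i).ind_self)
  refine ⟨⟨s.X ∪ X'.image σ, s.Q ∪ Q'.image ρ, E, f1, f2, fun r hr => ?_⟩,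
    ⟨subset_union_left, subset_union_left, (f4 0).1.symm, (f4 0).2⟩, h, hfix, b1,
    subset_union_right, subset_union_right, (f4 1).2, (iso_tr h N X' Q').agree_right (f4 1).1.symm⟩
  obtain ⟨i, hi⟩ := f3 r hr
  fin_cases i
  · exact hi.trans subset_union_left
  · exact hi.trans subset_union_right
  · exact hi.trans (hXs.trans subset_union_left)

abbrev Task := (Finset ℕ × Finset ℕ × Finset ℕ × Finset ℕ) × Finset Edge × Finset (ℕ × ℕ × ℕ)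

def Has (N : Str) (t : Task) : Prop :=
  (∀ r, vs r ⊆ t.1.2.1 → (r ∈ N.R ↔ r ∈ t.2.1)) ∧
    ∀ p ∈ t.1.2.2.2, ∀ v ∈ t.1.2.1, ∀ l, (p, v, l) ∈ t.2.2 ↔ N.f p v = l

lemma Has.agree {N N' : Str} {t : Task} (h : Has N t) (h' : Has N' t) :
    Agree N N' t.1.2.1 t.1.2.2.2 :=
  ⟨fun r hr => (h.1 r hr).trans (h'.1 r hr).symm,
    fun p hp v hv => ((h'.2 p hp v hv _).1 ((h.2 p hp v hv _).2 rfl)).symm⟩

lemma exists_has (N : Str) (h : Sp N.R) (X X' Q Q' : Finset ℕ) :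
    ∃ u, Has N ((X, X', Q, Q'), u) := by
  refine ⟨(ed h X', (Q' ×ˢ X').image fun x => (x.1, x.2, N.f x.1 x.2)), fun r hr => ?_,
    fun p hp v hv l => ?_⟩
  · exact ⟨fun h' => (mem_ed (h := h)).2 ⟨h', hr⟩, fun h' => ((mem_ed (h := h)).1 h').1⟩
  · simp only [mem_image, mem_product, Prod.mk.injEq, Prod.exists]
    constructor
    · rintro ⟨a, b, -, rfl, rfl, rfl⟩
      rfl
    · rintro rfl
      exact ⟨p, v, ⟨hp, hv⟩, rfl, rfl, rfl⟩

lemma St.next (s : St) (t : Task) : ∃ s' : St, s.le s' ∧ ∀ N : Str, Has N t →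
    t.1.1 ⊆ t.1.2.1 → t.1.2.2.1 ⊆ t.1.2.2.2 → Sp N.R → Hit N → Cl s.N.R t.1.1 → Cl N.R t.1.1 →
    Agree s.N N t.1.1 t.1.2.2.1 → t.1.1 ⊆ s.X → t.1.2.2.1 ⊆ s.Q →
    ∃ h : G, (∀ c : El, c.1 ∈ t.1.1 → h.γ c = c) ∧ (∀ p ∈ t.1.2.2.1, h.ρ p = p) ∧
      t.1.2.1.image h.σ ⊆ s'.X ∧ t.1.2.2.2.image h.ρ ⊆ s'.Q ∧ Cl s'.N.R (t.1.2.1.image h.σ) ∧
      Iso h N s'.N t.1.2.1 t.1.2.2.2 := by
  by_cases hex : ∃ N : Str, Has N t ∧ t.1.1 ⊆ t.1.2.1 ∧ t.1.2.2.1 ⊆ t.1.2.2.2 ∧ Sp N.R ∧ Hit N ∧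
      Cl s.N.R t.1.1 ∧ Cl N.R t.1.1 ∧ Agree s.N N t.1.1 t.1.2.2.1 ∧ t.1.1 ⊆ s.X ∧ t.1.2.2.1 ⊆ s.Q
  · obtain ⟨N₀, a0, a1, a2, a3, a4, a5, a6, a7, a8, a9⟩ := hex
    obtain ⟨s', b0, h, b1, b2, b3, b4, b5, b6⟩ := s.step N₀ _ _ _ _ a1 a2 a3 a4 a5 a6 a7 a8 a9
    exact ⟨s', b0, fun N hN _ _ _ _ _ _ _ _ _ =>
      ⟨h, b1, b2, b3, b4, b5, Iso.agree_left (hN.agree a0) b6⟩⟩
  · exact ⟨s, s.le_refl, fun N a0 a1 a2 a3 a4 a5 a6 a7 a8 a9 =>
      absurd ⟨N, a0, a1, a2, a3, a4, a5, a6, a7, a8, a9⟩ hex⟩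

theorem exists_rich : ∃ M : Str, Sp M.R ∧ Hit M ∧ Rich M := by
  choose nx hnx hnx' using St.next
  obtain ⟨e, he⟩ := exists_surjective_nat Task
  let s₀ : St := ⟨∅, ∅, ⟨∅, fun _ _ => 0⟩, fun X F hF => by
    have : F = ∅ := eq_empty_of_forall_notMem fun r hr => (hF r hr).1
    rw [this]
    simpa using Nat.lt_pow_self (by norm_num), fun _ _ h => h.elim, fun _ h => h.elim⟩
  let s : ℕ → St := fun n => Nat.rec s₀ (fun n t => (nx t (e n.unpair.1)).add n) n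
  have hs : ∀ n, s (n + 1) = (nx (s n) (e n.unpair.1)).add n := fun n => rfl
  have hle : ∀ n m, n ≤ m → (s n).le (s m) := by
    intro n m h
    induction m, h using Nat.le_induction with
    | base => exact St.le_refl _
    | succ m _ ih => exact St.le_trans ih (St.le_trans (hnx _ _) (St.le_add _ _))
  have hX : ∀ v n, v < n → v ∈ (s n).X := fun v n h =>
    (hle (v + 1) n h).1 (mem_insert_self _ _)
  have hQ : ∀ v n, v < n → v ∈ (s n).Q := fun v n h =>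
    (hle (v + 1) n h).2.1 (mem_insert_self _ _)
  have hR : ∀ n m, n ≤ m → (s n).N.R ⊆ (s m).N.R := fun n m h r hr =>
    ((hle n m h).2.2.1.1 r ((s n).ins r hr)).1 hr
  let M : Str := ⟨{r | ∃ n, r ∈ (s n).N.R}, fun p v => (s (max p v + 1)).N.f p v⟩
  have hAg : ∀ n, Agree (s n).N M (s n).X (s n).Q := by
    intro n
    refine ⟨fun r hr => ⟨fun h => ⟨n, h⟩, fun ⟨m, h⟩ => ?_⟩, fun p hp v hv => ?_⟩
    · exact ((hle n _ (le_max_left n m)).2.2.1.1 r hr).2 (hR m _ (le_max_right n m) h)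
    · exact ((hle n _ (le_max_left n (max p v + 1))).2.2.1.2 p hp v hv).trans
        ((hle _ _ (le_max_right n (max p v + 1))).2.2.1.2 p (hQ p (max p v + 1) (by omega)) v
          (hX v (max p v + 1) (by omega))).symm
  have hF : ∀ (F : Finset Edge) n, (∀ r ∈ F, r ∈ M.R) → ∃ m, n ≤ m ∧ ∀ r ∈ F, r ∈ (s m).N.R := by
    intro F n h
    choose! k hk using h
    refine ⟨max n (F.sup k), le_max_left _ _, fun r hr => hR _ _ ?_ (hk r hr)⟩
    exact (le_sup (f := k) hr).trans (le_max_right _ _)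
  have hCl : ∀ n, Cl M.R (s n).X := by
    intro n Y F hY h
    obtain ⟨m, h1, h2⟩ := hF F n fun r hr => (h r hr).1
    exact (hle n m h1).2.2.2 Y F hY fun r hr => ⟨h2 r hr, (h r hr).2⟩
  have hbig : ∀ S : Finset ℕ, ∃ n, ∀ m, n ≤ m → S ⊆ (s m).X ∧ S ⊆ (s m).Q := by
    intro S
    refine ⟨S.sup id + 1, fun m hm => ⟨fun v hv => hX _ _ ?_, fun v hv => hQ _ _ ?_⟩⟩ <;>
    · have := le_sup (f := id) hv
      simp only [id] at this hm
      omega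
  refine ⟨M, fun X F h => ?_, fun p r hr => ?_, fun N X X' Q Q' a1 a2 a3 a4 a5 a6 a7 => ?_⟩
  · obtain ⟨m, -, h2⟩ := hF F 0 fun r hr => (h r hr).1
    exact (s m).sp X F fun r hr => ⟨h2 r hr, (h r hr).2⟩
  · obtain ⟨n, hn⟩ := hr
    have h1 := hR n _ (le_max_left n (p + 1)) hn
    obtain ⟨i, hi⟩ := (s _).hit p r h1
    exact ⟨i, ((hAg _).2 p (hQ _ _ (by omega)) _ ((s _).ins r h1 (mem_vs r i))).symm.trans hi⟩
  · obtain ⟨u, hu⟩ := exists_has N a3 X X' Q Q'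
    obtain ⟨j, hj⟩ := he ((X, X', Q, Q'), u)
    obtain ⟨n₀, hn₀⟩ := hbig (X ∪ Q)
    have h1 := hn₀ (Nat.pair j n₀) (Nat.right_le_pair _ _)
    have h2 : X ⊆ (s (Nat.pair j n₀)).X := subset_union_left.trans h1.1
    have h3 : Q ⊆ (s (Nat.pair j n₀)).Q := subset_union_right.trans h1.2
    obtain ⟨h, b1, b2, b3, b4, b5, b6⟩ := hnx' (s (Nat.pair j n₀)) _ N hu a1 a2 a3 a4
      (a5.mono fun r hr => ⟨_, hr⟩) a6 (((hAg _).mono h2 h3).trans a7) h2 h3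
    have e1 := hs (Nat.pair j n₀)
    rw [Nat.unpair_pair, hj] at e1
    have c1 := hAg (Nat.pair j n₀ + 1)
    have c2 := hCl (Nat.pair j n₀ + 1)
    rw [e1] at c1 c2
    have d1 := b3.trans (subset_insert (Nat.pair j n₀) _)
    have d2 := b4.trans (subset_insert (Nat.pair j n₀) _)
    exact ⟨h, b1, b2, Cl.trans d1 b5 (fun r hr hx => (c1.1 r hx).2 hr) c2,
      b6.agree_right (c1.mono d1 d2)⟩

end Pool.Agent.H821Z.Ex
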