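import Mathlib

/-! Back-and-forth systems of finite index on a set. -/

set_option autoImplicit false

namespace Pool.Agent.H821Z.Ex

/-- A back-and-forth system with finitely many classes in each arity. -/
structure BF (O : Type) where
  E : ∀ {ι : Type}, (ι → O) → (ι → O) → Prop
  refl : ∀ {ι : Type} [Finite ι] (x : ι → O), E x x
  symm : ∀ {ι : Type} {x y : ι → O}, E x y → E y x
  trans : ∀ {ι : Type} {x y z : ι → O}, E x y → E y z → E x z
  comp : ∀ {ι κ : Type} (f : κ → ι) {x y : ι → O}, E x y → E (x ∘ f) (y ∘ f)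
  inj : ∀ {ι : Type} {x y : ι → O} {i j : ι}, E x y → x i = x j → y i = y j
  ext : ∀ {ι κ : Type} [Finite κ] {x y : ι → O}, E x y → ∀ a : κ → O,
    ∃ b : κ → O, E (Sum.elim x a) (Sum.elim y b)
  fin : ∀ (ι : Type) [Finite ι], ∃ s : Set (ι → O), s.Finite ∧ ∀ x, ∃ y ∈ s, E x y

/-- An invariant relation between tuples. -/
def BF.Inv {O : Type} (B : BF O) {α β : Type} (Φ : (α → O) → (β → O) → Prop) : Prop :=
  ∀ a b a' b', B.E (Sum.elim a b) (Sum.elim a' b') → Φ a b → Φ a' b'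

/-- No invariant relation has an `SOP₁` tree. -/
def BF.NoTree {O : Type} (B : BF O) : Prop :=
  ∀ (α β : Type) [Finite α] [Finite β] (Φ : (α → O) → (β → O) → Prop), B.Inv Φ →
    ∀ b : List Bool → β → O, (∀ η, ∃ a, ∀ ν, ν <+: η → Φ a (b ν)) →
      (∀ η ν, η ++ [false] <+: ν → ¬∃ a, Φ a (b ν) ∧ Φ a (b (η ++ [true]))) → False

/-- Three two-inconsistent indiscernible families whose first members cover everything. -/
def BF.Cover {O : Type} (B : BF O) : Prop :=
  ∃ (Φ : O → O → Prop) (y : Fin 3 → ℕ → O),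
    (∀ a b a' b', B.E ![a, b] ![a', b'] → Φ a b → Φ a' b') ∧
    (∀ a, ∃ i, Φ a (y i 0)) ∧ (∀ a i, ¬(Φ a (y i 0) ∧ Φ a (y i 1))) ∧
    ∀ (i : Fin 3) (κ : Type) [Finite κ] (u w : κ → ℕ), Function.Injective u →
      Function.Injective w → B.E (y i ∘ u) (y i ∘ w)

end Pool.Agent.H821Z.Ex
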