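import Pool.Agent.H821Z.Ex.Types

/-! The independence theorem in the generic structure. -/

set_option autoImplicit false

namespace Pool.Agent.H821Z.Ex

open Finset Equiv

lemma perms3 (s : Perm ℕ) (D A B B0 Z0 Z1 Z2 : Finset ℕ) (hfix : ∀ v ∈ D, s v = v)
    (dA : D ⊆ A) (dB : D ⊆ B) (dB0 : D ⊆ B0) (iB : A ∩ B ⊆ D) (iB0 : A ∩ B0 ⊆ D)
    (iBB : B ∩ B0.image s ⊆ D) (z0 : B ∪ B0.image s ⊆ Z0) (z1 : A ∪ B ⊆ Z1) (z2 : A ∪ B0 ⊆ Z2) :
    ∃ s1 s2 : Perm ℕ, (∀ v ∈ B, s1 v = v) ∧ (∀ v ∈ B0, s2 v = s v) ∧ (∀ v ∈ A, s2 v = s1 v) ∧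
      Z0 ∩ Z1.image s1 = B ∧ Z0 ∩ Z2.image s2 = B0.image s ∧
      Z1.image s1 ∩ Z2.image s2 = A.image s1 := by
  obtain ⟨s1, a1, a2⟩ := exists_perm_ext B id (Set.injOn_id _) Z1 Z0
  have hA : ∀ v ∈ A, v ∉ B0 → s1 v ∉ Z0 := fun v hv hn =>
    a2 v (z1 (mem_union_left _ hv)) fun h => hn (dB0 (iB (mem_inter.2 ⟨hv, h⟩)))
  have hB0 : ∀ v ∈ B0, s v ∈ Z0 := fun v hv => z0 (mem_union_right _ (mem_image_of_mem _ hv))
  obtain ⟨s2, b1, b2⟩ := exists_perm_ext (A ∪ B0) (fun v => if v ∈ B0 then s v else s1 v) (by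
    intro v hv w hw h
    simp only [coe_union, Set.mem_union, mem_coe] at hv hw h
    split_ifs at h with h1 h2 h2
    · exact s.injective h
    · exact absurd (h ▸ hB0 v h1) (hA w (hw.resolve_right h2) h2)
    · exact absurd (h ▸ hB0 w h2) (hA v (hv.resolve_right h1) h1)
    · exact s1.injective h) Z2 (Z0 ∪ Z1.image s1)
  have c1 : ∀ v ∈ B0, s2 v = s v := fun v hv => by rw [b1 v (mem_union_right _ hv), if_pos hv]
  have c2 : ∀ v ∈ A, s2 v = s1 v := by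
    intro v hv
    rw [b1 v (mem_union_left _ hv)]
    split_ifs with h
    · have := iB0 (mem_inter.2 ⟨hv, h⟩)
      rw [hfix v this, a1 v (dB this), id]
    · rfl
  have e1 : Z0 ∩ Z1.image s1 = B :=
    image_inter_of_move (subset_union_right.trans z1) (subset_union_left.trans z0) a1 a2
  refine ⟨s1, s2, a1, c1, c2, e1, ?_, ?_⟩
  · ext v
    simp only [mem_inter, mem_image]
    constructor
    · rintro ⟨hv, w, hw, rfl⟩
      by_cases h : w ∈ B0
      · exact ⟨w, h, (c1 w h).symm⟩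
      · by_cases h' : w ∈ A
        · exact absurd (c2 w h' ▸ hv) (hA w h' h)
        · exact absurd (mem_union_left _ hv) (b2 w hw (by simp [h, h']))
    · rintro ⟨w, hw, rfl⟩
      exact ⟨hB0 w hw, w, z2 (mem_union_right _ hw), c1 w hw⟩
  · ext v
    constructor
    · intro h
      obtain ⟨hv, h⟩ := mem_inter.1 h
      obtain ⟨w, hw, rfl⟩ := mem_image.1 h
      by_cases h' : w ∈ A
      · exact mem_image.2 ⟨w, h', (c2 w h').symm⟩
      · by_cases h : w ∈ B0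
        · rw [c1 w h] at hv ⊢
          have d1 : s w ∈ B := e1 ▸ mem_inter.2 ⟨hB0 w h, hv⟩
          have d2 := iBB (mem_inter.2 ⟨d1, mem_image_of_mem _ h⟩)
          exact mem_image.2 ⟨_, dA d2, a1 _ d1⟩
        · exact absurd (mem_union_right _ hv) (b2 w hw (by simp [h, h']))
    · intro h
      obtain ⟨w, hw, rfl⟩ := mem_image.1 h
      exact mem_inter.2 ⟨mem_image_of_mem _ (z1 (mem_union_left _ hw)),
        mem_image.2 ⟨w, z2 (mem_union_left _ hw), c2 w hw⟩⟩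

lemma labels (g : G) (KA K0 : Finset El) (h1 : ∀ c ∈ KA, ∀ c' ∈ K0, c.1 = c'.1 → g.σ c.1 = c.1)
    (h2 : ∀ c ∈ KA, c ∈ K0 ∪ K0.image g.γ → g.γ c = c) :
    ∃ τ : ℕ → Perm ℕ, (∀ c ∈ K0, τ c.1 c.2 = (g.γ c).2) ∧ ∀ c ∈ KA, τ c.1 c.2 = c.2 := by
  have key : ∀ v, ∃ τ : Perm ℕ, ∀ l ∈ ((KA ∪ K0).filter fun c => c.1 = v).image Prod.snd,
      τ l = if (v, l) ∈ K0 then (g.γ (v, l)).2 else l := by
    intro v
    have aux : ∀ l m, (v, l) ∈ K0 → (v, m) ∈ KA → (g.γ (v, l)).2 = m → l = m := by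
      intro l m hl hm h
      have e1 : g.γ (v, l) = (v, m) := Prod.ext ((g.h _).trans (h1 (v, m) hm (v, l) hl rfl)) h
      have e2 := h2 _ hm (mem_union_right _ (mem_image.2 ⟨_, hl, e1⟩))
      exact (Prod.mk.inj (g.γ.injective (e1.trans e2.symm))).2
    have mem : ∀ l ∈ ((KA ∪ K0).filter fun c => c.1 = v).image Prod.snd, (v, l) ∉ K0 →
        (v, l) ∈ KA := by
      intro l hl hn
      obtain ⟨c, hc, rfl⟩ := mem_image.1 hl
      obtain ⟨hc', rfl⟩ := mem_filter.1 hc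
      exact (mem_union.1 hc').resolve_right hn
    obtain ⟨τ, hτ, -⟩ := exists_perm_ext (((KA ∪ K0).filter fun c => c.1 = v).image Prod.snd)
      (fun l => if (v, l) ∈ K0 then (g.γ (v, l)).2 else l) (by
        intro l hl m hm h
        simp only at h
        split_ifs at h with a1 a2 a2
        · have : g.γ (v, l) = g.γ (v, m) := Prod.ext ((g.h _).trans (g.h (v, m)).symm) h
          exact (Prod.mk.inj (g.γ.injective this)).2
        · exact aux l m a1 (mem m hm a2) h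
        · exact (aux m l a2 (mem l hl a1) h.symm).symm
        · exact h) ∅ ∅
    exact ⟨τ, hτ⟩
  choose τ hτ using key
  refine ⟨τ, fun c hc => ?_, fun c hc => ?_⟩
  · rw [hτ c.1 c.2 (mem_image_of_mem _ (mem_filter.2 ⟨mem_union_right _ hc, rfl⟩)), if_pos hc]
  · rw [hτ c.1 c.2 (mem_image_of_mem _ (mem_filter.2 ⟨mem_union_left _ hc, rfl⟩))]
    split_ifs with h
    · rw [h2 c hc (mem_union_left _ h)]
    · rfl

theorem itd {M : Str} (hs : Sp M.R) (hh : Hit M) (hr : Rich M) {α β : Type} [Finite α] [Finite β]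
    (a : α → O) (b b0 : β → O) (g : G) (D A B B0 QD QA QB Q0 : Finset ℕ) (hg : PI M g B0 Q0)
    (ha : ∀ i, (a i).1.1 ∈ A ∧ (a i).2 ∈ QA) (hb : ∀ i, (b i).1.1 ∈ B ∧ (b i).2 ∈ QB)
    (hb0 : ∀ i, (b0 i).1.1 ∈ B0 ∧ (b0 i).2 ∈ Q0) (cA : Cl M.R A) (cB : Cl M.R B)
    (fD : ∀ v ∈ D, g.σ v = v) (dA : D ⊆ A) (dB : D ⊆ B) (dB0 : D ⊆ B0) (iB : A ∩ B ⊆ D)
    (iB0 : A ∩ B0 ⊆ D) (iBB : B ∩ B0.image g.σ ⊆ D)
    (fQ : ∀ v ∈ QD, g.ρ v = v) (qA : QD ⊆ QA) (qB : QD ⊆ QB) (qB0 : QD ⊆ Q0) (jB : QA ∩ QB ⊆ QD)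
    (jB0 : QA ∩ Q0 ⊆ QD) (jBB : QB ∩ Q0.image g.ρ ⊆ QD)
    (i1 : Ind M.R A B) (i2 : Ind M.R A B0) (i0 : Ind M.R B (B0.image g.σ))
    (hK : ∀ c ∈ relE hs A QA ∪ tE a,
      c ∈ (relE hs B0 Q0 ∪ tE b0) ∪ (relE hs B0 Q0 ∪ tE b0).image g.γ → g.γ c = c) :
    ∃ a' : α → O, Eqv M (Sum.elim a b) (Sum.elim a' b) ∧
      Eqv M (Sum.elim a b0) (Sum.elim a' fun i => g.act (b0 i)) := by
  obtain ⟨σ1, σ2, s1, s2, s3, s4, s5, s6⟩ := perms3 g.σ D A B B0 _ _ _ fD dA dB dB0 iB iB0 iBB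
    (subset_cl hs _) (subset_cl hs _) (subset_cl hs _)
  obtain ⟨ρ1, ρ2, r1, r2, r3, r4, r5, r6⟩ := perms3 g.ρ QD QA QB Q0 _ _ _ fQ qA qB qB0 jB jB0 jBB
    Subset.rfl Subset.rfl Subset.rfl
  have kA : ∀ c ∈ relE hs A QA ∪ tE a, c.1 ∈ A := by
    intro c hc
    rcases mem_union.1 hc with h | h
    · exact relE_fst h
    · obtain ⟨i, rfl⟩ := mem_tE.1 h
      exact (ha i).1
  have k0 : ∀ c ∈ relE hs B0 Q0 ∪ tE b0, c.1 ∈ B0 := by
    intro c hc
    rcases mem_union.1 hc with h | h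
    · exact relE_fst h
    · obtain ⟨i, rfl⟩ := mem_tE.1 h
      exact (hb0 i).1
  obtain ⟨τ, t1, t2⟩ := labels g _ _ (fun c hc c' hc' e =>
    fD _ (iB0 (mem_inter.2 ⟨kA c hc, e ▸ k0 c' hc'⟩))) hK
  set h1 := G.of σ1 (fun _ => 1) ρ1 with hh1
  set h2 := G.of σ2 τ ρ2 with hh2
  have u1 : ∀ c : El, c.1 ∈ B → h1.γ c = c := fun c hc => Prod.ext (s1 _ hc) rfl
  have u2 : ∀ c ∈ relE hs B0 Q0 ∪ tE b0, h2.γ c = g.γ c := fun c hc =>
    Prod.ext ((s2 _ (k0 c hc)).trans (g.h c).symm) (t1 c hc)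
  have u3 : ∀ c ∈ relE hs A QA ∪ tE a, h2.γ c = h1.γ c := fun c hc =>
    Prod.ext (s3 _ (kA c hc)) (t2 c hc)
  have v1 : B.image σ1 = B := image_of_fix s1
  have v2 : B0.image σ2 = B0.image g.σ := image_congr fun v hv => s2 v hv
  have v3 : A.image σ2 = A.image σ1 := image_congr fun v hv => s3 v hv
  have w2 : Q0.image ρ2 = Q0.image g.ρ := image_congr fun v hv => r2 v hv
  have w3 : QA.image ρ2 = QA.image ρ1 := image_congr fun v hv => r3 v hv
  have g01 : Agree M (tr h1 M) B QB := (iso_tr h1 M B QB).agree_of_fix u1 r1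
  have g02 : Agree M (tr h2 M) (B0.image g.σ) (Q0.image g.ρ) := by
    rw [← v2, ← w2]
    exact (hg.2.2.congr (k := h2) hs s2 r2 fun c hc => u2 c (mem_union_left _ hc)).agree
      (iso_tr h2 M _ _)
  have g12 : Agree (tr h1 M) (tr h2 M) (A.image σ1) (QA.image ρ1) := by
    rw [← v3, ← w3]
    exact ((iso_tr h1 M A QA).congr (k := h2) hs s3 r3
      fun c hc => u3 c (mem_union_left _ hc)).agree (iso_tr h2 M _ _)
  have c10 : Cl (tr h1 M).R B := v1 ▸ cB.tr h1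
  have c12 : Cl (tr h1 M).R (A.image σ1) := cA.tr h1
  have c20 : Cl (tr h2 M).R (B0.image g.σ) := v2 ▸ hg.1.tr h2
  have c21 : Cl (tr h2 M).R (A.image σ1) := v3 ▸ cA.tr h2
  have j1 : Ind (tr h1 M).R (A.image σ1) B := by
    have := i1.tr h1
    rwa [show B.image h1.σ = B from v1] at this
  have j2 : Ind (tr h2 M).R (A.image σ1) (B0.image g.σ) := v3 ▸ v2 ▸ i2.tr h2
  have s4' := (inter_comm _ _).trans s4
  have s5' := (inter_comm _ _).trans s5
  have s6' := (inter_comm _ _).trans s6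
  have r4' := (inter_comm _ _).trans r4
  have r5' := (inter_comm _ _).trans r5
  have r6' := (inter_comm _ _).trans r6
  obtain ⟨E, f1, f2, -, f4⟩ := amalgam ![M, tr h1 M, tr h2 M]
    ![cl hs (B ∪ B0.image g.σ), (cl hs (A ∪ B)).image σ1, (cl hs (A ∪ B0)).image σ2]
    ![QB ∪ Q0.image g.ρ, (QA ∪ QB).image ρ1, (QA ∪ Q0).image ρ2] (by
      intro i
      fin_cases i
      exacts [hs, hs.tr h1, hs.tr h2]) (by
      intro i
      fin_cases i
      exacts [hh, hh.tr h1, hh.tr h2]) (by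
      intro i j
      fin_cases i <;> fin_cases j
      · exact Agree.refl _ _ _
      · exact g01.mono s4.subset r4.subset
      · exact g02.mono s5.subset r5.subset
      · exact g01.symm.mono s4'.subset r4'.subset
      · exact Agree.refl _ _ _
      · exact g12.mono s6.subset r6.subset
      · exact g02.symm.mono s5'.subset r5'.subset
      · exact g12.symm.mono s6'.subset r6'.subset
      · exact Agree.refl _ _ _) (by
      intro i j hij
      fin_cases i <;> fin_cases j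
      · exact absurd rfl hij
      · exact s4.symm ▸ cB
      · exact s5.symm ▸ hg.2.1
      · exact s4'.symm ▸ c10
      · exact absurd rfl hij
      · exact s6.symm ▸ c12
      · exact s5'.symm ▸ c20
      · exact s6'.symm ▸ c21
      · exact absurd rfl hij) (by
      intro i j k hij hik hjk
      fin_cases i <;> fin_cases j <;> fin_cases k <;>
        first
          | exact absurd rfl hij
          | exact absurd rfl hik
          | exact absurd rfl hjk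
          | skip
      · exact s4.symm ▸ s5.symm ▸ i0
      · exact s4.symm ▸ s5.symm ▸ i0.symm
      · exact s4'.symm ▸ s6.symm ▸ j1.symm
      · exact s4'.symm ▸ s6.symm ▸ j1
      · exact s5'.symm ▸ s6'.symm ▸ j2.symm
      · exact s5'.symm ▸ s6'.symm ▸ j2)
  obtain ⟨k, m1, m2, m3, m4⟩ := hr E (cl hs (B ∪ B0.image g.σ))
    (cl hs (B ∪ B0.image g.σ) ∪ ((cl hs (A ∪ B)).image σ1 ∪ (cl hs (A ∪ B0)).image σ2))
    (QB ∪ Q0.image g.ρ) ((QB ∪ Q0.image g.ρ) ∪ ((QA ∪ QB).image ρ1 ∪ (QA ∪ Q0).image ρ2))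
    subset_union_left subset_union_left f1 f2 (cl_cl hs _) (f4 0).2 (f4 0).1.symm
  have p : ∀ (h : G) (Z Q : Finset ℕ), Cl M.R Z → Agree E (tr h M) (Z.image h.σ) (Q.image h.ρ) →
      Cl E.R (Z.image h.σ) → Z.image h.σ ⊆ (cl hs (A ∪ B)).image σ1 ∪ (cl hs (A ∪ B0)).image σ2 →
      Q.image h.ρ ⊆ (QA ∪ QB).image ρ1 ∪ (QA ∪ Q0).image ρ2 → PI M (k.mul h) Z Q := by
    intro h Z Q n1 n2 n3 n4 n5
    refine ⟨n1, ?_, ((iso_tr h M Z Q).agree_right n2.symm).mul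
      (m4.mono (n4.trans subset_union_right) (n5.trans subset_union_right))⟩
    show Cl M.R (Z.image ⇑(k.σ * h.σ))
    rw [image_mul]
    exact m4.cl (n4.trans subset_union_right) n3 m3
  refine ⟨fun i => k.act (h1.act (a i)), ⟨_, _, _, p h1 _ _ (cl_cl hs _) (f4 1).1 (f4 1).2
    subset_union_left subset_union_left, ?_⟩, ⟨_, _, _, p h2 _ _ (cl_cl hs _) (f4 2).1 (f4 2).2
    subset_union_right subset_union_right, ?_⟩⟩
  · rintro (i | i)
    · exact ⟨subset_cl hs _ (mem_union_left _ (ha i).1), mem_union_left _ (ha i).2, rfl⟩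
    · refine ⟨subset_cl hs _ (mem_union_right _ (hb i).1), mem_union_right _ (hb i).2, ?_⟩
      show (k.γ (h1.γ (b i).1), k.ρ (ρ1 (b i).2)) = b i
      rw [u1 _ (hb i).1, r1 _ (hb i).2, m1 _ (subset_cl hs _ (mem_union_left _ (hb i).1)),
        m2 _ (mem_union_left _ (hb i).2)]
  · rintro (i | i)
    · refine ⟨subset_cl hs _ (mem_union_left _ (ha i).1), mem_union_left _ (ha i).2, ?_⟩
      show (k.γ (h2.γ (a i).1), k.ρ (ρ2 (a i).2)) = (k.γ (h1.γ (a i).1), k.ρ (ρ1 (a i).2))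
      rw [u3 _ (mem_union_right _ (mem_tE.2 ⟨i, rfl⟩)), r3 _ (ha i).2]
    · refine ⟨subset_cl hs _ (mem_union_right _ (hb0 i).1), mem_union_right _ (hb0 i).2, ?_⟩
      show (k.γ (h2.γ (b0 i).1), k.ρ (ρ2 (b0 i).2)) = (g.γ (b0 i).1, g.ρ (b0 i).2)
      rw [u2 _ (mem_union_right _ (mem_tE.2 ⟨i, rfl⟩)), r2 _ (hb0 i).2, m1 _ (subset_cl hs _
        (mem_union_right _ (by rw [g.h]; exact mem_image_of_mem _ (hb0 i).1))),
        m2 _ (mem_union_right _ (mem_image_of_mem _ (hb0 i).2))]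

end Pool.Agent.H821Z.Ex
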