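import Pool.Agent.H821Z.Ex.Itd

/-! The generic structure has no `SOP₁` tree, and `x = x` is covered by dividing relations. -/

set_option autoImplicit false

namespace Pool.Agent.H821Z.Ex

open Finset Equiv

lemma exists_flat (ψ : ℕ → ℕ) (_hψ : Antitone ψ) (h : ℕ → ℕ) (_hh : ∀ l, l ≤ h l) (K : ℕ) :
    ∀ l, ψ l ≤ K → ∃ s ≤ K, ψ (h^[s] l) ≤ ψ (h (h^[s] l)) := by
  induction K with
  | zero => exact fun l hl => ⟨0, le_rfl, hl.trans (Nat.zero_le _)⟩
  | succ K ih =>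
    intro l hl
    by_cases hc : ψ l ≤ ψ (h l)
    · exact ⟨0, Nat.zero_le _, hc⟩
    · obtain ⟨s, h1, h2⟩ := ih (h l) (by omega)
      exact ⟨s + 1, by omega, h2⟩

lemma iter_le (h : ℕ → ℕ) (hh : ∀ l, l ≤ h l) (l : ℕ) {s t : ℕ} (hst : s ≤ t) :
    h^[s] l ≤ h^[t] l := by
  induction t, hst using Nat.le_induction with
  | base => exact le_rfl
  | succ t _ ih => rw [Function.iterate_succ_apply']; exact ih.trans (hh _)

variable {M : Str}

/-- states of the construction of the array -/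
structure Sta (hs : Sp M.R) where
  τ : List Bool
  X : Finset ℕ
  Q : Finset ℕ
  K : Finset El
  cl : Cl M.R X
  z : ∀ v ∈ X, (v, 0) ∈ K

lemma sta_step (hs : Sp M.R) {β : Type} [Finite β]
    (b : List Bool → β → O) (s : Sta hs) : ∃ (t : Sta hs) (l m : List Bool) (g : G)
    (Y P : Finset ℕ), s.τ <+: l ∧ l <+: m ∧ t.τ = m ++ [false] ∧ PI M g Y P ∧ s.X ⊆ Y ∧ s.Q ⊆ P ∧
      (∀ i, (b l i).1.1 ∈ Y ∧ (b l i).2 ∈ P ∧ g.act (b l i) = b (m ++ [true]) i) ∧
      (∀ c ∈ s.K, g.γ c = c) ∧ (∀ p ∈ s.Q, g.ρ p = p) ∧ Y ⊆ t.X ∧ Y.image g.σ ⊆ t.X ∧ P ⊆ t.Q ∧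
      P.image g.ρ ⊆ t.Q ∧ s.K ⊆ t.K ∧
      (relE hs Y P ∪ tE (b l)) ∪ (relE hs Y P ∪ tE (b l)).image g.γ ⊆ t.K := by
  obtain ⟨S, hS, hS'⟩ := eqv_fin hs (β ⊕ s.K ⊕ s.Q)
  choose c hc hc' using hS'
  let x : ℕ → β ⊕ s.K ⊕ s.Q → O := fun n => Sum.elim (b (s.τ ++ List.replicate (n + 1) true))
    (Sum.elim (fun c => (c.1, 0)) fun p => ((0, 0), p.1))
  obtain ⟨n, m, hnm, e⟩ := hS.exists_lt_map_eq_of_forall_mem (f := fun n => c (x n))
    fun n => hc _
  obtain ⟨g, Y, P, h1, h2⟩ := (hc' (x n)).trans (e ▸ (hc' (x m)).symm)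
  have a1 : ∀ c ∈ s.K, c.1 ∈ Y ∧ g.γ c = c := fun c hc =>
    ⟨(h2 (.inr (.inl ⟨c, hc⟩))).1, congrArg Prod.fst (h2 (.inr (.inl ⟨c, hc⟩))).2.2⟩
  have a2 : ∀ p ∈ s.Q, p ∈ P ∧ g.ρ p = p := fun p hp =>
    ⟨(h2 (.inr (.inr ⟨p, hp⟩))).2.1, congrArg Prod.snd (h2 (.inr (.inr ⟨p, hp⟩))).2.2⟩
  refine ⟨⟨s.τ ++ List.replicate m true ++ [false], cl hs (Y ∪ Y.image g.σ), P ∪ P.image g.ρ,
    (s.K ∪ (cl hs (Y ∪ Y.image g.σ)).image fun v => (v, 0)) ∪
      ((relE hs Y P ∪ tE (b (s.τ ++ List.replicate (n + 1) true))) ∪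
      (relE hs Y P ∪ tE (b (s.τ ++ List.replicate (n + 1) true))).image g.γ), cl_cl hs _,
    fun v hv => mem_union_left _ (mem_union_right _ (mem_image_of_mem _ hv))⟩,
    s.τ ++ List.replicate (n + 1) true, s.τ ++ List.replicate m true, g, Y, P,
    List.prefix_append _ _, ?_, rfl, h1, fun v hv => (a1 _ (s.z v hv)).1, fun p hp => (a2 p hp).1,
    fun i => ?_, fun c hc => (a1 c hc).2, fun p hp => (a2 p hp).2,
    subset_union_left.trans (subset_cl hs _), subset_union_right.trans (subset_cl hs _),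
    subset_union_left, subset_union_right, subset_union_left.trans subset_union_left,
    subset_union_right⟩
  · obtain ⟨d, rfl⟩ := Nat.exists_eq_add_of_le (show n + 1 ≤ m from hnm)
    rw [List.replicate_add (n + 1) d, ← List.append_assoc]
    exact List.prefix_append _ _
  · rw [List.append_assoc, ← List.replicate_succ']
    exact h2 (.inl i)

theorem noTree (hs : Sp M.R) (hh : Hit M) (hr : Rich M) : (bf hs hh hr).NoTree := by
  intro α β _ _ Φ hΦ b hpos hneg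
  choose nx lam mu g Y P h1 h2 h3 h4 h5 h6 h7 h8 h9 h10 h11 h12 h13 h14 h15 using
    sta_step hs b
  let S : ℕ → Sta hs := fun n => nx^[n] ⟨[], ∅, ∅, ∅, hs.cl_empty, by simp⟩
  have hS : ∀ n, S (n + 1) = nx (S n) := fun n => Function.iterate_succ_apply' _ _ _
  have mono : ∀ n m, n ≤ m → (S n).τ <+: (S m).τ ∧ (S n).X ⊆ (S m).X ∧ (S n).Q ⊆ (S m).Q ∧
      (S n).K ⊆ (S m).K := by
    intro n m h
    induction m, h using Nat.le_induction with
    | base => exact ⟨List.prefix_rfl, Subset.rfl, Subset.rfl, Subset.rfl⟩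
    | succ m _ ih =>
      rw [hS]
      exact ⟨ih.1.trans ((h1 _).trans ((h2 _).trans (h3 _ ▸ List.prefix_append _ _))),
        ih.2.1.trans ((h5 _).trans (h10 _)), ih.2.2.1.trans ((h6 _).trans (h12 _)),
        ih.2.2.2.trans (h14 _)⟩
  let ψ : Finset ℕ → Finset ℕ → ℕ → ℕ := fun T U m => rel hs T (S m).X + #(U \ (S m).Q)
  have r1 : ∀ T n m, n ≤ m → rel hs T (S m).X ≤ rel hs T (S n).X := fun T n m h =>
    (rel_main hs (S n).cl (S m).cl (mono n m h).2.1).1
  have r2 : ∀ (U : Finset ℕ) n m, n ≤ m → U \ (S m).Q ⊆ U \ (S n).Q := fun U n m h =>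
    sdiff_subset_sdiff Subset.rfl (mono n m h).2.2.1
  have hψ : ∀ T U, Antitone (ψ T U) := fun T U n m h =>
    add_le_add (r1 T n m h) (card_le_card (r2 U n m h))
  have hψb : ∀ T U m, ψ T U m ≤ #T + #U := fun T U m =>
    add_le_add (rel_le hs _ _) (card_le_card sdiff_subset)
  have flat : ∀ T U n m, n ≤ m → ψ T U n ≤ ψ T U m → (∀ B, Cl M.R B → (S n).X ⊆ B →
      B ⊆ (S m).X → cl hs (T ∪ (S n).X) ∩ B ⊆ (S n).X ∧ Ind M.R (cl hs (T ∪ (S n).X)) B) ∧
      ∀ V ⊆ (S m).Q, (U ∪ (S n).Q) ∩ V ⊆ (S n).Q := by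
    intro T U n m h e
    have e1 := r1 T n m h
    have e2 := card_le_card (r2 U n m h)
    simp only [ψ] at e
    refine ⟨fun B c1 c2 c3 => (rel_main hs (S n).cl c1 c2).2 ?_, fun V hV p hp => ?_⟩
    · have := (rel_main (T := T) hs c1 (S m).cl c3).1
      omega
    · have e3 := eq_of_subset_of_card_le (r2 U n m h) (by omega)
      obtain ⟨p1, p2⟩ := mem_inter.1 hp
      by_contra hn
      have : p ∈ U \ (S n).Q := mem_sdiff.2 ⟨(mem_union.1 p1).resolve_right hn, hn⟩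
      rw [← e3] at this
      exact (mem_sdiff.1 this).2 (hV p2)
  set na := Nat.card α
  set nb := Nat.card β
  let gl : ℕ → ℕ := fun l => 3 * 3 ^ (na + #(S l).X) + (na + #(S l).Q) * 3 ^ (na + #(S l).X) + na
  let nxt : ℕ → ℕ := fun l => l + gl l + 1
  have n1 : ∀ l, l ≤ nxt l := fun l => by simp only [nxt]; omega
  let hb : ℕ → ℕ := fun l => nxt^[nb + nb + 1] l + 1
  have n2 : ∀ l, l ≤ hb l := fun l => (iter_le nxt n1 l (Nat.zero_le _)).trans (Nat.le_succ _)
  obtain ⟨a, ha⟩ := hpos (S (hb^[na + na + 1] 0)).τ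
  obtain ⟨s, s1, s2⟩ := exists_flat _ (hψ (tV a) (tP a)) hb n2 (na + na) 0
    ((hψb _ _ _).trans (add_le_add (card_range_le _) (card_range_le _)))
  have s3 : hb (hb^[s] 0) ≤ hb^[na + na + 1] 0 := by
    rw [← Function.iterate_succ_apply' hb]
    exact iter_le hb n2 0 (Nat.succ_le_succ s1)
  generalize hb^[s] 0 = L at s2 s3
  generalize hb^[na + na + 1] 0 = N at ha s3
  set j := nxt^[nb + nb + 1] L with hj
  change j + 1 ≤ N at s3
  change ψ _ _ L ≤ ψ _ _ (j + 1) at s2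
  obtain ⟨s', t1, t2⟩ := exists_flat _ (hψ (tV (b (lam (S j)))) (tP (b (lam (S j))))) nxt n1
    (nb + nb) L ((hψb _ _ _).trans (add_le_add (card_range_le _) (card_range_le _)))
  have t3 : nxt (nxt^[s'] L) ≤ j := by
    rw [← Function.iterate_succ_apply' nxt]
    exact iter_le nxt n1 L (Nat.succ_le_succ t1)
  have t4 : L ≤ nxt^[s'] L := iter_le nxt n1 L (Nat.zero_le s')
  generalize nxt^[s'] L = l at t2 t3 t4
  set KA := relE hs (cl hs (tV a ∪ (S l).X)) (tP a ∪ (S l).Q) ∪ tE a with hKA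
  have k1 : #KA ≤ gl l := by
    have c1 : #(cl hs (tV a ∪ (S l).X)) ≤ 3 ^ (na + #(S l).X) :=
      (card_cl hs _).trans (Nat.pow_le_pow_right (by norm_num) ((card_union_le _ _).trans
        (add_le_add (card_range_le _) le_rfl)))
    have c2 : #(tP a ∪ (S l).Q) ≤ na + #(S l).Q :=
      (card_union_le _ _).trans (add_le_add (card_range_le _) le_rfl)
    exact (card_union_le _ _).trans (add_le_add ((card_relE hs _ _).trans
      (add_le_add (Nat.mul_le_mul_left _ c1) (Nat.mul_le_mul c2 c1))) (card_range_le _))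
  obtain ⟨d, d1, d2⟩ := exists_flat (fun m => #(KA \ (S m).K)) (fun n m h => card_le_card
    (sdiff_subset_sdiff Subset.rfl (mono n m h).2.2.2)) Nat.succ Nat.le_succ (gl l) l
    ((card_le_card sdiff_subset).trans k1)
  rw [Nat.succ_iterate] at d2
  have d3 : l + d + 1 ≤ nxt l := by simp only [nxt]; omega
  have d4 : l ≤ l + d := Nat.le_add_right _ _
  generalize l + d = i at d2 d3 d4
  have d5 := eq_of_subset_of_card_le
    (sdiff_subset_sdiff (Subset.rfl (s := KA)) (mono i (i + 1) (Nat.le_succ _)).2.2.2) d2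
  obtain ⟨fa, fa'⟩ := flat (tV a) (tP a) l (j + 1) (by omega) ((hψ _ _ t4).trans s2)
  obtain ⟨fb, fb'⟩ := flat _ _ l (i + 1) (by omega) (t2.trans (hψ _ _ d3))
  have mi := mono l i d4
  have mj := mono (i + 1) (j + 1) (by omega)
  have ml := mono l (j + 1) (by omega)
  rw [hS] at mj ml fa fa' fb fb' d5
  rw [hS j] at mj
  have fix : ∀ v ∈ (S l).X, (g (S i)).σ v = v := by
    intro v hv
    have := (g (S i)).h (v, 0)
    rw [h8 _ _ ((S i).z v (mi.2.1 hv))] at this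
    exact this.symm
  have b1 : cl hs (tV (b (lam (S j))) ∪ (S l).X) ⊆ (nx (S j)).X := by
    refine cl_min hs (union_subset (fun v hv => ?_) ml.2.1) (nx (S j)).cl
    obtain ⟨k, rfl⟩ := mem_tV.1 hv
    exact h10 _ (h7 _ k).1
  have b2 : tP (b (lam (S j))) ∪ (S l).Q ⊆ (nx (S j)).Q := by
    refine union_subset (fun v hv => ?_) ml.2.2.1
    obtain ⟨k, rfl⟩ := mem_tP.1 hv
    exact h12 _ (h7 _ k).2.1
  have b3 : (S l).X ⊆ (Y (S i)).image (g (S i)).σ := fun v hv =>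
    mem_image.2 ⟨v, h5 _ (mi.2.1 hv), fix v hv⟩
  have u1 := fa _ (cl_cl hs _) (subset_union_right.trans (subset_cl hs _)) b1
  have u2 := fa _ (h4 (S i)).1 (mi.2.1.trans (h5 _)) ((h10 _).trans mj.2.1)
  have u3 := fb _ (h4 (S i)).2.1 b3 (h11 _)
  obtain ⟨a', e1, e2⟩ := itd hs hh hr a (b (lam (S j))) (b (lam (S i))) (g (S i)) (S l).X _ _ _
    (S l).Q (tP a ∪ (S l).Q) (tP (b (lam (S j))) ∪ (S l).Q) _ (h4 (S i))
    (fun k => ⟨subset_cl hs _ (mem_union_left _ (mem_tV.2 ⟨k, rfl⟩)),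
      mem_union_left _ (mem_tP.2 ⟨k, rfl⟩)⟩)
    (fun k => ⟨subset_cl hs _ (mem_union_left _ (mem_tV.2 ⟨k, rfl⟩)),
      mem_union_left _ (mem_tP.2 ⟨k, rfl⟩)⟩)
    (fun k => ⟨(h7 _ k).1, (h7 _ k).2.1⟩) (cl_cl hs _) (cl_cl hs _) fix
    (subset_union_right.trans (subset_cl hs _)) (subset_union_right.trans (subset_cl hs _))
    (mi.2.1.trans (h5 _)) u1.1 u2.1 u3.1 (fun p hp => h9 _ p (mi.2.2.1 hp)) subset_union_right
    subset_union_right (mi.2.2.1.trans (h6 _)) (fa' _ b2) (fa' _ ((h12 _).trans mj.2.2.1))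
    (fb' _ (h13 _)) u1.2 u2.2 u3.2 (by
      intro c hc hc'
      refine h8 _ c ?_
      by_contra hn
      have : c ∈ KA \ (S i).K := mem_sdiff.2 ⟨hc, hn⟩
      rw [← d5] at this
      exact (mem_sdiff.1 this).2 (h15 _ hc'))
  have pre : ∀ k, k + 1 ≤ N → lam (S k) <+: (S N).τ := by
    intro k hk
    have := (mono (k + 1) N hk).1
    rw [hS, h3] at this
    exact (h2 _).trans ((List.prefix_append _ _).trans this)
  refine hneg (mu (S i)) (lam (S j)) ?_ ⟨a', hΦ _ _ _ _ e1 (ha _ (pre j s3)), ?_⟩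
  · have := (mono (i + 1) j (by omega)).1
    rw [hS, h3] at this
    exact this.trans (h1 _)
  · rw [← funext fun k => (h7 (S i) k).2.2]
    exact hΦ _ _ _ _ e2 (ha _ (pre i (by omega)))

theorem cover (hs : Sp M.R) (hh : Hit M) (hr : Rich M) : (bf hs hh hr).Cover := by
  let r₀ : Edge := fun i => (i.val, 1)
  let N : Str := ⟨{r₀}, fun p v => if p = v then 0 else 1⟩
  have v0 : vs r₀ = range 3 := by decide
  have hF : ∀ F : Finset Edge, (∀ r ∈ F, r ∈ N.R) → F = ∅ ∨ F = {r₀} := fun F h =>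
    subset_singleton_iff.1 fun r hr => mem_singleton.2 (h r hr)
  have sN : Sp N.R := by
    intro X F h
    rcases hF F fun r hr => (h r hr).1 with rfl | rfl
    · simpa using Nat.lt_pow_self (by norm_num)
    · have h1 := card_le_card (h r₀ (mem_singleton_self _)).2
      rw [v0, card_range] at h1
      obtain ⟨k, hk⟩ := Nat.exists_eq_add_of_le h1
      rw [hk, card_singleton]
      exact sp_lift (by norm_num) (by norm_num) k
  have hN : Hit N := by
    rintro p r rfl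
    by_cases h : p = 0
    · exact ⟨1, by simp [N, r₀, h]⟩
    · exact ⟨0, by simp [N, r₀, h]⟩
  have cN : ∀ i, Cl N.R {i} := by
    intro i Y F hY h
    rcases hF F fun r hr => (h r hr).1 with rfl | rfl
    · simpa using hY
    · have h1 := (card_le_card (h r₀ (mem_singleton_self _)).2.2).trans (card_union_le _ _)
      rw [v0, card_range, card_singleton] at h1
      rw [card_singleton]
      omega
  obtain ⟨h, -, -, a1, a2⟩ := hr N ∅ (range 3) ∅ (range 3) (empty_subset _) (empty_subset _) sN hN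
    hs.cl_empty sN.cl_empty ⟨fun r hr => by simpa using hr (mem_vs r 0), by simp⟩
  refine ⟨fun x y => M.f x.2 y.1.1 = y.1.2, fun i n => h.act ((i, n + 1), i), ?_, fun a => ?_,
    fun a i ⟨e1, e2⟩ => ?_, fun i κ _ u w hu hw => ?_⟩
  · rintro a b a' b' ⟨g, X, Q, p1, p2⟩ e
    obtain ⟨-, q1, q2⟩ := p2 0
    obtain ⟨q3, -, q4⟩ := p2 1
    simp only [Matrix.cons_val_zero, Matrix.cons_val_one] at q1 q2 q3 q4
    have := p1.2.2.2 _ q1 _ q3
    rw [e] at this
    rw [← q2, ← q4]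
    simp only [G.act]
    rw [this]
  · exact hh a.2 _ ((a2.1 r₀ v0.subset).1 rfl)
  · simp only [G.act, h.h] at e1 e2
    have : h.γ (i, 0 + 1) = h.γ (i, 1 + 1) :=
      Prod.ext ((h.h _).trans (h.h (i, 1 + 1)).symm) (e1.symm.trans e2)
    simpa using h.γ.injective this
  · obtain ⟨π, hπ⟩ := Perm.exists_extending_pair
      (f := fun o : Option κ => o.elim 0 fun k => u k + 1)
      (g := fun o : Option κ => o.elim 0 fun k => w k + 1)
      (by rintro (_ | x) (_ | y) <;> simp [hu.eq_iff])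
      (by rintro (_ | x) (_ | y) <;> simp [hw.eq_iff])
    have π0 : π 0 = 0 := hπ none
    have π1 : ∀ k, π (u k + 1) = w k + 1 := fun k => hπ (some k)
    have hi : ({i.val} : Finset ℕ) ⊆ range 3 := by simp
    have b1 := a2.mono hi hi
    have b2 : Iso (G.of 1 (fun _ => π) 1) N N {i.val} {i.val} := by
      constructor
      · intro r hr
        have n1 : ∀ r : Edge, vs r ⊆ {i.val} → r ∉ N.R := by
          rintro r hr rfl
          have := card_le_card hr
          rw [v0] at this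
          simp at this
        refine iff_of_false (n1 r hr) (n1 _ ?_)
        rw [vs_act]
        simpa [G.of] using hr
      · intro p hp v hv
        rw [mem_singleton.1 hp, mem_singleton.1 hv]
        simp [G.of, N, π0]
    have c1 : Cl M.R (({i.val} : Finset ℕ).image h.σ) := a2.cl hi (cN _) a1
    have b3 := b1.inv.mul (k := G.of 1 (fun _ => π) 1) (by simpa [G.inv] using b2)
    have b4 := b3.mul (k := h) (by simpa [G.inv, G.mul, G.of] using b1)
    refine ⟨_, _, _, ⟨c1, by simpa [G.inv, G.mul, G.of] using c1, b4⟩, fun k => ?_⟩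
    simp [G.act, G.mul, G.inv, G.of, h.h, π1]

theorem exists_bf : ∃ B : BF O, B.NoTree ∧ B.Cover := by
  obtain ⟨M, hs, hh, hr⟩ := exists_rich
  exact ⟨_, noTree hs hh hr, cover hs hh hr⟩

end Pool.Agent.H821Z.Ex
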