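import Pool.Agent.H821Z.Ex.Wrap
import Pool.Agent.H821Z.Ex.Nsop

/-! A countably categorical `NSOP₁` theory without the existence axiom. -/

set_option autoImplicit false

namespace Pool.Agent.H821Z.Ex

open FirstOrder FirstOrder.Language

universe w

variable {Ω : Type} (B : BF Ω)

/-- long strict chains -/
def Chn {γ δ : Type} (D : γ → Set δ) : ℕ → γ → γ → Prop
  | 0, y, y' => D y ⊂ D y'
  | k + 1, y, y' => ∃ z, D y ⊂ D z ∧ Chn D k z y'

lemma Chn.lt {γ δ : Type} {D : γ → Set δ} : ∀ {k : ℕ} {y y' : γ}, Chn D k y y' → D y ⊂ D y'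
  | 0, _, _, h => h
  | _ + 1, _, _, ⟨_, h, h'⟩ => h.trans h'.lt

lemma Chn.split {γ δ : Type} {D : γ → Set δ} (k : ℕ) :
    ∀ {j : ℕ} {y y' : γ}, Chn D (k + j + 1) y y' → ∃ z, Chn D j y z ∧ Chn D k z y'
  | 0, _, _, h => h
  | j + 1, _, _, ⟨z, h, h'⟩ => by
    obtain ⟨u, h1, h2⟩ := Chn.split k (j := j) h'
    exact ⟨u, ⟨z, h, h1⟩, h2⟩

lemma Chn.mono {γ δ : Type} {D : γ → Set δ} :
    ∀ {j k : ℕ} {y y' : γ}, j ≤ k → Chn D k y y' → Chn D j y y'
  | 0, _, _, _, _, h => h.lt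
  | j + 1, k + 1, _, _, hjk, ⟨z, h, h'⟩ => ⟨z, h, h'.mono (by omega)⟩

lemma BF.no_chain (hB : B.NoTree) {α β : Type} [Finite α] [Finite β]
    (Φ : (α → Ω) → (β → Ω) → Prop) (hΦ : B.Inv Φ) (b : ℕ → β → Ω)
    (hb : ∀ i, {x | Φ x (b i)} ⊂ {x | Φ x (b (i + 1))}) : False := by
  set D : (β → Ω) → Set (α → Ω) := fun y => {x | Φ x y} with hD
  have inv2 : ∀ x y y' x' z z', B.E (Sum.elim (Sum.elim y y') x) (Sum.elim (Sum.elim z z') x') →
      (Φ x y ↔ Φ x' z) ∧ (Φ x y' ↔ Φ x' z') := by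
    intro x y y' x' z z' h
    have e1 := B.comp (Sum.elim Sum.inr (Sum.inl ∘ Sum.inl)) h
    have e2 := B.comp (Sum.elim Sum.inr (Sum.inl ∘ Sum.inr)) h
    simp only [Sum.comp_elim, ← Function.comp_assoc, Sum.elim_comp_inl, Sum.elim_comp_inr] at e1 e2
    exact ⟨⟨hΦ _ _ _ _ e1, hΦ _ _ _ _ (B.symm e1)⟩, hΦ _ _ _ _ e2, hΦ _ _ _ _ (B.symm e2)⟩
  have sub : ∀ y y' z z', B.E (Sum.elim y y') (Sum.elim z z') → D z ⊆ D z' → D y ⊆ D y' := by
    intro y y' z z' h h' x hx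
    obtain ⟨x', e⟩ := B.ext h x
    exact (inv2 _ _ _ _ _ _ e).2.2 (h' ((inv2 _ _ _ _ _ _ e).1.1 hx))
  have sub' : ∀ y y' z z', B.E (Sum.elim y y') (Sum.elim z z') → D z' ⊆ D z → D y' ⊆ D y := by
    intro y y' z z' h h' x hx
    obtain ⟨x', e⟩ := B.ext h x
    exact (inv2 _ _ _ _ _ _ e).1.2 (h' ((inv2 _ _ _ _ _ _ e).2.1 hx))
  have lt : ∀ y y' z z', B.E (Sum.elim y y') (Sum.elim z z') → D y ⊂ D y' → D z ⊂ D z' :=
    fun y y' z z' h h' => ⟨sub _ _ _ _ (B.symm h) h'.1, fun h1 => h'.2 (sub' _ _ _ _ h h1)⟩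
  have inv : ∀ k y y' z z', B.E (Sum.elim y y') (Sum.elim z z') → Chn D k y y' → Chn D k z z' := by
    intro k
    induction k with
    | zero => exact lt
    | succ k ih =>
      rintro y y' z z' h ⟨u, h1, h2⟩
      obtain ⟨u', e⟩ := B.ext h u
      have e1 := B.comp (Sum.elim (Sum.inl ∘ Sum.inl) Sum.inr) e
      have e2 := B.comp (Sum.elim Sum.inr (Sum.inl ∘ Sum.inr)) e
      simp only [Sum.comp_elim, ← Function.comp_assoc, Sum.elim_comp_inl, Sum.elim_comp_inr]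
        at e1 e2
      exact ⟨u', lt _ _ _ _ e1 h1, ih _ _ _ _ e2 h2⟩
  obtain ⟨H, hH⟩ : ∃ H, ∀ y y', Chn D H y y' → ∀ k, Chn D k y y' := by
    obtain ⟨s, hs, hs'⟩ := B.fin (β ⊕ β)
    have : ∀ t : β ⊕ β → Ω, ∃ H, Chn D H (t ∘ Sum.inl) (t ∘ Sum.inr) →
        ∀ k, Chn D k (t ∘ Sum.inl) (t ∘ Sum.inr) := by
      intro t
      by_cases h : ∀ k, Chn D k (t ∘ Sum.inl) (t ∘ Sum.inr)
      · exact ⟨0, fun _ => h⟩
      · obtain ⟨k, hk⟩ := not_forall.1 h
        exact ⟨k, fun h' => absurd h' hk⟩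
    choose H hH using this
    obtain ⟨K, hK⟩ := (hs.image H).bddAbove
    refine ⟨K, fun y y' h k => ?_⟩
    obtain ⟨t, ht, e⟩ := hs' (Sum.elim y y')
    rw [← Sum.elim_comp_inl_inr t] at e
    exact inv _ _ _ _ _ (B.symm e) (hH t ((inv _ _ _ _ _ e h).mono (hK ⟨t, ht, rfl⟩)) k)
  have start : ∀ k i, Chn D k (b i) (b (i + k + 1)) := by
    intro k
    induction k with
    | zero => exact hb
    | succ k ih =>
      intro i
      refine ⟨b (i + 1), hb i, ?_⟩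
      have := ih (i + 1)
      rwa [show i + 1 + k + 1 = i + (k + 1) + 1 by omega] at this
  let P := {p : (β → Ω) × (β → Ω) // ∀ k, Chn D k p.1 p.2}
  have hmid : ∀ p : P, ∃ z, (∀ k, Chn D k p.1.1 z) ∧ ∀ k, Chn D k z p.1.2 := fun p => by
    obtain ⟨z, h1, h2⟩ := Chn.split H (p.2 (H + H + 1))
    exact ⟨z, hH _ _ h1, hH _ _ h2⟩
  choose mid m1 m2 using hmid
  let st : P → Bool → P := fun p t =>
    if t then ⟨(mid p, p.1.2), m2 p⟩ else ⟨(p.1.1, mid p), m1 p⟩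
  let nd : List Bool → P := fun η => η.foldl st ⟨(b 0, b (0 + H + 1)), hH _ _ (start H 0)⟩
  have nest : ∀ (ν : List Bool) (p : P), D p.1.1 ⊆ D (ν.foldl st p).1.1 ∧
      D (ν.foldl st p).1.2 ⊆ D p.1.2 := by
    intro ν
    induction ν with
    | nil => exact fun p => ⟨subset_rfl, subset_rfl⟩
    | cons t ν ih =>
      intro p
      have := ih (st p t)
      cases t
      · exact ⟨this.1, this.2.trans (m2 p 0).1⟩
      · exact ⟨(m1 p 0).1.trans this.1, this.2⟩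
  have nest' : ∀ ν η, ν <+: η → D (nd ν).1.1 ⊆ D (nd η).1.1 ∧ D (nd η).1.2 ⊆ D (nd ν).1.2 := by
    rintro ν _ ⟨μ, rfl⟩
    simp only [nd, List.foldl_append]
    exact nest _ _
  refine hB α (β ⊕ β) (fun x y => Φ x (y ∘ Sum.inr) ∧ ¬Φ x (y ∘ Sum.inl)) ?_
    (fun η => Sum.elim (nd η).1.1 (nd η).1.2) (fun η => ?_) ?_
  · intro a y a' y' h h'
    have e := B.comp (Sum.elim Sum.inr Sum.inl) h
    simp only [Sum.comp_elim, Sum.elim_comp_inl, Sum.elim_comp_inr] at e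
    rw [← Sum.elim_comp_inl_inr y, ← Sum.elim_comp_inl_inr y'] at e
    exact ⟨(inv2 _ _ _ _ _ _ e).2.1 h'.1, fun h1 => h'.2 ((inv2 _ _ _ _ _ _ e).1.2 h1)⟩
  · obtain ⟨a, h1, h2⟩ := Set.exists_of_ssubset ((nd η).2 0)
    exact ⟨a, fun ν hν => ⟨(nest' ν η hν).2 h1, fun h => h2 ((nest' ν η hν).1 h)⟩⟩
  · rintro η ν h ⟨a, ⟨h1, -⟩, -, h2⟩
    have := (nest' _ _ h).2 h1
    simp only [nd, List.foldl_append] at this h2
    exact h2 this

lemma BF.inv_formula {α β : Type} (φ : B.L.Formula (α ⊕ β)) :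
    B.Inv fun (x : α → B.C) (y : β → B.C) => φ.Realize (Sum.elim x y) :=
  fun _ _ _ _ h => (B.realize_iff φ h).1

lemma emb_realize {L : FirstOrder.Language.{0, 0}} {M : Type} {N : Type w} [L.Structure M]
    [L.Structure N] (j : M ↪ₑ[L] N) {α β : Type} (φ : L.Formula (α ⊕ β)) (x : α → M) (y : β → M) :
    φ.Realize (Sum.elim (j ∘ x) (j ∘ y)) ↔ φ.Realize (Sum.elim x y) := by
  rw [← Sum.comp_elim]
  exact j.map_formula φ _

lemma BF.exists_emb₂ [Countable Ω] [Infinite Ω] (N : Type w) [B.L.Structure N]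
    [N ⊨ B.L.completeTheory B.C] {ι : Type} [Countable ι] {n m : ℕ} (a : ι → Fin n → N)
    (b : ι → Fin m → N) : ∃ (j : B.C ↪ₑ[B.L] N) (a' : ι → Fin n → B.C) (b' : ι → Fin m → B.C),
      (∀ i, a i = j ∘ a' i) ∧ ∀ i, b i = j ∘ b' i := by
  obtain ⟨j, hj⟩ := B.exists_emb N ((Set.range fun z : ι × Fin n => a z.1 z.2) ∪
    Set.range fun z : ι × Fin m => b z.1 z.2) ((Set.countable_range _).union (Set.countable_range _))
  choose a' ha' using fun i k => hj (Or.inl ⟨(i, k), rfl⟩)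
  choose b' hb' using fun i k => hj (Or.inr ⟨(i, k), rfl⟩)
  exact ⟨j, a', b', fun i => funext fun k => (ha' i k).symm, fun i => funext fun k => (hb' i k).symm⟩

lemma BF.not_sop1 [Countable Ω] [Infinite Ω] (hB : B.NoTree) (N : Type w) [B.L.Structure N]
    [N ⊨ B.L.completeTheory B.C] : ¬HasSOP1 B.L N := by
  rintro ⟨n, m, φ, b, h1, h2⟩
  have h3 : ∀ η : List Bool, ∃ a : Fin n → N, ∀ ν, ν <+: η → φ.Realize (Sum.elim a (b ν)) := by
    intro η
    obtain ⟨a, ha⟩ := h1 (fun i => η.getD i false) (η.length + 1)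
    refine ⟨a, fun ν hν => ?_⟩
    have := ha ν.length (Nat.lt_succ_of_le hν.length_le)
    have e : (List.ofFn fun j : Fin ν.length => η.getD j false) = ν := by
      obtain ⟨μ, rfl⟩ := hν
      refine List.ext_getElem (by simp) fun i h h' => ?_
      simp [List.getElem?_append_left h', List.getElem?_eq_getElem h']
    rwa [e] at this
  choose a ha using h3
  obtain ⟨j, a', b', e1, e2⟩ := B.exists_emb₂ N a b
  refine hB _ _ _ (B.inv_formula φ) b' (fun η => ⟨a' η, fun ν hν => ?_⟩) ?_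
  · have := ha η ν hν
    rwa [e1, e2, emb_realize] at this
  · rintro η ν h ⟨x, h3, h4⟩
    refine h2 η ν h ⟨j ∘ x, ?_, ?_⟩ <;> rwa [e2, emb_realize]

lemma BF.not_sop [Countable Ω] [Infinite Ω] (hB : B.NoTree) (N : Type w) [B.L.Structure N]
    [N ⊨ B.L.completeTheory B.C] : ¬HasSOP B.L N := by
  rintro ⟨n, m, φ, b, h⟩
  choose a h1 h2 using fun i => Set.exists_of_ssubset (h i)
  obtain ⟨j, a', b', e1, e2⟩ := B.exists_emb₂ N a b
  refine B.no_chain hB _ (B.inv_formula φ) b' fun i => ⟨fun x hx => ?_, fun h3 => h2 i ?_⟩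
  · have := (h i).subset (show j ∘ x ∈ _ by
      show φ.Realize _
      rwa [e2, emb_realize])
    change φ.Realize _ at this
    rwa [e2, emb_realize] at this
  · have := h1 i
    change φ.Realize _ at this ⊢
    rw [e1, e2, emb_realize] at this ⊢
    exact h3 this

lemma BF.forks [Countable Ω] [Infinite Ω] (hB : B.Cover) (N : Type w) [B.L.Structure N]
    [N ⊨ B.L.completeTheory B.C] (a : Fin 1 → N) : TypeForks B.L N ∅ a := by
  obtain ⟨Φ, y, h1, h2, h3, h4⟩ := hB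
  obtain ⟨j, -⟩ := B.exists_emb N ∅ Set.countable_empty
  let r : B.L.Relations 2 := ⟨{z | Φ (z 0) (z 1)}, fun z z' h => h1 _ _ _ _ (by
    have e : ∀ z : Fin 2 → Ω, ![z 0, z 1] = z := fun z => by
      funext i
      fin_cases i <;> rfl
    rwa [e, e])⟩
  let ψ : B.L.Formula (Fin 1 ⊕ Fin 1) := r.formula ![Term.var (.inl 0), Term.var (.inr 0)]
  have hψ : ∀ x z : Fin 1 → B.C, ψ.Realize (Sum.elim x z) ↔ Φ (x 0) (z 0) := fun x z => by
    rw [Formula.realize_rel]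
    rfl
  have back : ∀ (k : ℕ) (z : Fin k → B.C) (x : Fin 1 → N), ∃ x' : Fin 1 → B.C, ∀ i,
      ψ.Realize (Sum.elim x fun _ => j (z i)) ↔ Φ (x' 0) (z i) := by
    intro k z x
    obtain ⟨x', h⟩ := B.forth (x := j ∘ z) (y := z) (fun φ => j.map_formula φ z) x
    refine ⟨x', fun i => ?_⟩
    have := h.comp (Sum.elim Sum.inr fun _ : Fin 1 => Sum.inl i) ψ
    rw [Sum.comp_elim, Sum.comp_elim] at this
    exact this.trans (hψ _ _)
  refine ⟨0, ⊤, Fin.elim0, fun i => i.elim0, Formula.realize_top.2 trivial, 3, fun _ => 1,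
    fun _ => ψ, fun i _ => j (y i 0), fun i => ⟨fun n _ => j (y i n), rfl, ?_, 2, ?_⟩, fun x _ => ?_⟩
  · intro k l φ c hc u v hu hv
    have key : ∀ u : Fin k → ℕ, (Sum.elim (fun z : Fin k × Fin 1 => j (y i (u z.1))) c) =
        j ∘ (y i ∘ u) ∘ Sum.elim Prod.fst fun t => (hc t).elim := by
      intro u
      funext z
      rcases z with z | z
      · rfl
      · exact (hc z).elim
    rw [key, key, j.map_formula, j.map_formula]
    exact B.realize_iff φ (B.comp _ (h4 i _ u v hu.injective hv.injective))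
  · rintro ⟨x, hx⟩
    obtain ⟨x', h⟩ := back 2 ![y i 0, y i 1] x
    exact h3 (x' 0) i ⟨(h 0).1 (hx 0 (by norm_num)), (h 1).1 (hx 1 (by norm_num))⟩
  · obtain ⟨x', h⟩ := back 3 (fun i => y i 0) x
    obtain ⟨i, hi⟩ := h2 (x' 0)
    exact ⟨i, (h i).2 hi⟩

theorem main : ∃ (L : FirstOrder.Language.{0, 0}) (T : L.Theory), T.IsComplete ∧
    CountablyCategorical L T ∧ ∀ M : Theory.ModelType.{0, 0, w} T,
      ¬HasSOP1 L M ∧ ¬HasSOP L M ∧ ∀ a : Fin 1 → M, TypeForks L M ∅ a := by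
  obtain ⟨B, h1, h2⟩ := exists_bf
  have i1 : Infinite B.C := inferInstanceAs (Infinite O)
  have i2 : Countable B.C := inferInstanceAs (Countable O)
  exact ⟨B.L, B.L.completeTheory B.C, completeTheory.isComplete _ _,
    ⟨B.countable, ⟨Theory.ModelType.of _ B.C, i2, i1⟩, fun M N _ _ => B.iso M N⟩,
    fun M => ⟨B.not_sop1 h1 M, B.not_sop h1 M, B.forks h2 M⟩⟩

end Pool.Agent.H821Z.Ex
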