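import Pool.Agent.H821Z.Ex.Generic
import Pool.Agent.H821Z.Ex.Iface

/-! The back-and-forth system of a generic structure. -/

set_option autoImplicit false

namespace Pool.Agent.H821Z.Ex

open Finset Equiv

abbrev O := El × ℕ

/-- partial isomorphisms between closed sets -/
def PI (M : Str) (g : G) (X Q : Finset ℕ) : Prop :=
  Cl M.R X ∧ Cl M.R (X.image g.σ) ∧ Iso g M M X Q

def G.act (g : G) (x : O) : O := (g.γ x.1, g.ρ x.2)

def Eqv (M : Str) {ι : Type} (x y : ι → O) : Prop :=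
  ∃ g X Q, PI M g X Q ∧ ∀ i, (x i).1.1 ∈ X ∧ (x i).2 ∈ Q ∧ g.act (x i) = y i

variable {M : Str} {g k : G} {X Y Q Q' : Finset ℕ}

lemma PI.inv (h : PI M g X Q) : PI M g.inv (X.image g.σ) (Q.image g.ρ) :=
  ⟨h.2.1, by
    show Cl M.R ((X.image g.σ).image ⇑(g.σ⁻¹))
    rw [image_inv]
    exact h.1, h.2.2.inv⟩

lemma PI.restrict (h : PI M g X Q) (hY : Y ⊆ X) (hc : Cl M.R Y) (hQ : Q' ⊆ Q) : PI M g Y Q' :=
  ⟨hc, h.2.2.cl hY hc h.2.1, h.2.2.mono hY hQ⟩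

lemma PI.mul (h : PI M g X Q) (h' : PI M k (X.image g.σ) (Q.image g.ρ)) : PI M (k.mul g) X Q :=
  ⟨h.1, by
    show Cl M.R (X.image ⇑(k.σ * g.σ))
    rw [image_mul]
    exact h'.2.1, h.2.2.mul h'.2.2⟩

lemma PI.extend (hs : Sp M.R) (hh : Hit M) (hr : Rich M) (h : PI M g X Q) (hY : X ⊆ Y)
    (hc : Cl M.R Y) (hQ : Q ⊆ Q') :
    ∃ g', PI M g' Y Q' ∧ (∀ c : El, c.1 ∈ X → g'.γ c = g.γ c) ∧ ∀ p ∈ Q, g'.ρ p = g.ρ p := by
  obtain ⟨k, a1, a2, a3, a4⟩ := hr (tr g M) (X.image g.σ) (Y.image g.σ) (Q.image g.ρ)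
    (Q'.image g.ρ) (image_subset_image hY) (image_subset_image hQ) (hs.tr g) (hh.tr g) h.2.1
    (h.1.tr g) (h.2.2.agree (iso_tr g M X Q))
  refine ⟨k.mul g, ⟨hc, ?_, (iso_tr g M Y Q').mul a4⟩, fun c hc => ?_, fun p hp => ?_⟩
  · show Cl M.R (Y.image ⇑(k.σ * g.σ))
    rwa [image_mul]
  · exact a1 _ (by rw [g.h]; exact mem_image_of_mem _ hc)
  · exact a2 _ (mem_image_of_mem _ hp)

lemma act_inv_act (g : G) (x : O) : g.inv.act (g.act x) = x := by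
  simp [G.act, G.inv]

lemma Eqv.symm {ι : Type} {x y : ι → O} (h : Eqv M x y) : Eqv M y x := by
  obtain ⟨g, X, Q, h, h'⟩ := h
  refine ⟨g.inv, _, _, h.inv, fun i => ?_⟩
  obtain ⟨a, b, c⟩ := h' i
  rw [← c]
  exact ⟨by rw [G.act, g.h]; exact mem_image_of_mem _ a, mem_image_of_mem _ b, act_inv_act g _⟩

lemma Eqv.trans {ι : Type} {x y z : ι → O} (h : Eqv M x y) (h' : Eqv M y z) : Eqv M x z := by
  obtain ⟨g, X, Q, h1, h2⟩ := h
  obtain ⟨k, Y, P, h3, h4⟩ := h'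
  have c1 : Cl M.R (X.image g.σ ∩ Y) := h1.2.1.inter h3.1
  have p1 := (h1.inv.restrict inter_subset_left c1 (inter_subset_left (s₂ := P))).inv
  have p2 := h3.restrict inter_subset_right c1 (inter_subset_right (s₁ := Q.image g.ρ))
  have e1 : ∀ (e : Perm ℕ) (S : Finset ℕ), (S.image ⇑(e⁻¹)).image ⇑(e⁻¹⁻¹) = S := fun e S =>
    image_inv _ _
  have p3 := PI.mul p1 (k := k) (by
    show PI M k (((X.image g.σ ∩ Y).image ⇑(g.σ⁻¹)).image ⇑(g.σ⁻¹⁻¹))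
      (((Q.image g.ρ ∩ P).image ⇑(g.ρ⁻¹)).image ⇑(g.ρ⁻¹⁻¹))
    rw [e1, e1]
    exact p2)
  refine ⟨_, _, _, p3, fun i => ?_⟩
  obtain ⟨a, b, c⟩ := h2 i
  obtain ⟨a', b', c'⟩ := h4 i
  rw [← c] at a' b' c'
  rw [G.act, g.h] at a'
  refine ⟨mem_image.2 ⟨_, mem_inter.2 ⟨mem_image_of_mem _ a, a'⟩, by simp [G.inv]⟩,
    mem_image.2 ⟨_, mem_inter.2 ⟨mem_image_of_mem _ b, b'⟩, by simp [G.inv]⟩, ?_⟩
  rw [← c']
  simp [G.act, G.mul, G.inv]

/-- vertices of a tuple -/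
noncomputable def tV {ι : Type} [Finite ι] (x : ι → O) : Finset ℕ :=
  (Set.finite_range fun i => (x i).1.1).toFinset

/-- parameters of a tuple -/
noncomputable def tP {ι : Type} [Finite ι] (x : ι → O) : Finset ℕ :=
  (Set.finite_range fun i => (x i).2).toFinset

/-- elements of a tuple -/
noncomputable def tE {ι : Type} [Finite ι] (x : ι → O) : Finset El :=
  (Set.finite_range fun i => (x i).1).toFinset

lemma mem_tV {ι : Type} [Finite ι] {x : ι → O} {v : ℕ} : v ∈ tV x ↔ ∃ i, (x i).1.1 = v := by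
  simp only [tV, Set.Finite.mem_toFinset, Set.mem_range]

lemma mem_tP {ι : Type} [Finite ι] {x : ι → O} {v : ℕ} : v ∈ tP x ↔ ∃ i, (x i).2 = v := by
  simp only [tP, Set.Finite.mem_toFinset, Set.mem_range]

lemma mem_tE {ι : Type} [Finite ι] {x : ι → O} {v : El} : v ∈ tE x ↔ ∃ i, (x i).1 = v := by
  simp only [tE, Set.Finite.mem_toFinset, Set.mem_range]

lemma card_range_le {ι β : Type} [Finite ι] (f : ι → β) :
    #(Set.finite_range f).toFinset ≤ Nat.card ι := by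
  rw [← Set.ncard_eq_toFinset_card _ (Set.finite_range f), ← Set.image_univ, ← Set.ncard_univ]
  exact Set.ncard_image_le

lemma Eqv.ext (hs : Sp M.R) (hh : Hit M) (hr : Rich M) {ι κ : Type} [Finite κ] {x y : ι → O}
    (h : Eqv M x y) (a : κ → O) : ∃ b : κ → O, Eqv M (Sum.elim x a) (Sum.elim y b) := by
  obtain ⟨g, X, Q, h1, h2⟩ := h
  obtain ⟨g', a1, a2, a3⟩ := h1.extend hs hh hr
    (subset_union_left.trans (subset_cl hs (X ∪ tV a))) (cl_cl hs _)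
    (subset_union_left (s₂ := tP a))
  refine ⟨fun j => g'.act (a j), g', _, _, a1, ?_⟩
  rintro (i | j)
  · obtain ⟨b1, b2, b3⟩ := h2 i
    refine ⟨subset_cl hs _ (mem_union_left _ b1), mem_union_left _ b2, ?_⟩
    simp only [Sum.elim_inl, G.act, a2 _ b1, a3 _ b2]
    exact b3
  · exact ⟨subset_cl hs _ (mem_union_right _ (mem_tV.2 ⟨j, rfl⟩)),
      mem_union_right _ (mem_tP.2 ⟨j, rfl⟩), rfl⟩

/-- the relevant elements over a finite set -/
noncomputable def relE (hs : Sp M.R) (X Q : Finset ℕ) : Finset El :=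
  (ed hs X).biUnion (fun r => univ.image r) ∪ (Q ×ˢ X).image fun x => (x.2, M.f x.1 x.2)

lemma mem_relE {hs : Sp M.R} {c : El} : c ∈ relE hs X Q ↔
    (∃ r ∈ M.R, vs r ⊆ X ∧ ∃ i, r i = c) ∨ ∃ p ∈ Q, ∃ v ∈ X, (v, M.f p v) = c := by
  simp only [relE, mem_union, mem_biUnion, mem_ed, mem_image, mem_univ, true_and, mem_product,
    Prod.exists, and_assoc, exists_and_left]

lemma relE_fst {hs : Sp M.R} {c : El} (h : c ∈ relE hs X Q) : c.1 ∈ X := by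
  rcases mem_relE.1 h with ⟨r, -, h', i, rfl⟩ | ⟨p, -, v, hv, rfl⟩
  · exact h' (mem_vs r i)
  · exact hv

lemma relE_mono (hs : Sp M.R) (hX : X ⊆ Y) (hQ : Q ⊆ Q') : relE hs X Q ⊆ relE hs Y Q' := by
  intro c h
  rcases mem_relE.1 h with ⟨r, h1, h', i, rfl⟩ | ⟨p, hp, v, hv, rfl⟩
  · exact mem_relE.2 (Or.inl ⟨r, h1, h'.trans hX, i, rfl⟩)
  · exact mem_relE.2 (Or.inr ⟨p, hQ hp, v, hX hv, rfl⟩)

lemma card_relE (hs : Sp M.R) (X Q : Finset ℕ) : #(relE hs X Q) ≤ 3 * #X + #Q * #X := by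
  refine (card_union_le _ _).trans (add_le_add (card_biUnion_le.trans ?_)
    (card_image_le.trans (card_product _ _).le))
  refine (sum_le_sum (g := fun _ => 3) fun r _ => card_image_le.trans (by simp)).trans ?_
  rw [sum_const, smul_eq_mul, mul_comm]
  exact Nat.mul_le_mul_left _ (ed_card hs X)

lemma relE_map {hs : Sp M.R} (h : Iso g M M X Q) {c : El} (hc : c ∈ relE hs X Q) :
    g.γ c ∈ relE hs (X.image g.σ) (Q.image g.ρ) := by
  rcases mem_relE.1 hc with ⟨r, h1, h2, i, rfl⟩ | ⟨p, hp, v, hv, rfl⟩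
  · exact mem_relE.2 (Or.inl ⟨_, (h.1 r h2).1 h1, (vs_act_subset g r X).2 h2, i, rfl⟩)
  · exact mem_relE.2 (Or.inr ⟨_, mem_image_of_mem _ hp, _, mem_image_of_mem _ hv,
      (h.2 p hp v hv).symm⟩)

lemma Iso.congr {N : Str} (hs : Sp M.R) (h : Iso g M N X Q) (h1 : ∀ v ∈ X, k.σ v = g.σ v)
    (h2 : ∀ p ∈ Q, k.ρ p = g.ρ p) (h3 : ∀ c ∈ relE hs X Q, k.γ c = g.γ c) : Iso k M N X Q := by
  have e : ∀ r ∈ M.R, vs r ⊆ X → k.γ ∘ r = g.γ ∘ r := fun r hr hx =>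
    funext fun i => h3 _ (mem_relE.2 (Or.inl ⟨r, hr, hx, i, rfl⟩))
  refine ⟨fun r hr => ⟨fun h4 => e r h4 hr ▸ (h.1 r hr).1 h4, fun h4 => ?_⟩, fun p hp v hv => ?_⟩
  · have a1 : vs (g.inv.γ ∘ (k.γ ∘ r)) ⊆ X := by
      rw [← vs_act_subset g, act_inv, ← image_congr (f := k.σ) fun v hv => h1 v hv,
        vs_act_subset]
      exact hr
    have a2 := (h.1 _ a1).2 (by rwa [act_inv])
    have a3 := e _ a2 a1
    rw [act_inv] at a3
    rw [← act_inj k a3]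
    exact a2
  · rw [h3 _ (mem_relE.2 (Or.inr ⟨p, hp, v, hv, rfl⟩)), h1 v hv, h2 p hp, h.2 p hp v hv]

lemma exists_small (hs : Sp M.R) (ι : Type) [Finite ι] : ∃ n : ℕ, ∀ x : ι → O, ∃ g : G,
    (∀ v ∈ cl hs (tV x), g.σ v < n) ∧ (∀ p ∈ tP x, g.ρ p < n) ∧
    ∀ c ∈ relE hs (cl hs (tV x)) (tP x) ∪ tE x, (g.γ c).2 < n := by
  set m := Nat.card ι
  refine ⟨3 ^ m + (3 * 3 ^ m + m * 3 ^ m + m), fun x => ?_⟩
  have h1 : #(cl hs (tV x)) ≤ 3 ^ m :=
    (card_cl hs _).trans (Nat.pow_le_pow_right (by norm_num) (card_range_le _))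
  have h2 : #(tP x) ≤ m := card_range_le _
  have h3 : #(relE hs (cl hs (tV x)) (tP x) ∪ tE x) ≤ 3 * 3 ^ m + m * 3 ^ m + m :=
    (card_union_le _ _).trans (add_le_add ((card_relE hs _ _).trans
      (add_le_add (Nat.mul_le_mul_left _ h1) (Nat.mul_le_mul h2 h1))) (card_range_le _))
  obtain ⟨σ, hσ⟩ := exists_perm_small _ (3 ^ m + (3 * 3 ^ m + m * 3 ^ m + m))
    (h1.trans (Nat.le_add_right _ _))
  obtain ⟨ρ, hρ⟩ := exists_perm_small _ (3 ^ m + (3 * 3 ^ m + m * 3 ^ m + m))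
    (h2.trans (by omega))
  obtain ⟨τ, hτ⟩ := exists_perm_small ((relE hs (cl hs (tV x)) (tP x) ∪ tE x).image Prod.snd)
    (3 ^ m + (3 * 3 ^ m + m * 3 ^ m + m)) (card_image_le.trans (h3.trans (by omega)))
  exact ⟨G.of σ (fun _ => τ) ρ, hσ, hρ, fun c hc => hτ _ (mem_image_of_mem _ hc)⟩

lemma eqv_fin (hs : Sp M.R) (ι : Type) [Finite ι] :
    ∃ s : Set (ι → O), s.Finite ∧ ∀ x, ∃ y ∈ s, Eqv M x y := by
  classical
  obtain ⟨n, hn⟩ := exists_small hs ι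
  choose g h1 h2 h3 using hn
  set S : Finset El := range n ×ˢ range n with hS
  have hS' : ∀ x, ∀ c ∈ relE hs (cl hs (tV x)) (tP x) ∪ tE x, (g x).γ c ∈ S := by
    intro x c hc
    refine mem_product.2 ⟨mem_range.2 ?_, mem_range.2 (h3 x c hc)⟩
    rw [(g x).h]
    refine h1 x _ ?_
    rcases mem_union.1 hc with h | h
    · exact relE_fst h
    · obtain ⟨i, rfl⟩ := mem_tE.1 h
      exact subset_cl hs _ (mem_tV.2 ⟨i, rfl⟩)
  let code : (ι → O) → (Finset ℕ × Finset ℕ) × (ι → O) × Finset Edge × Finset (ℕ × El) := fun x =>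
    (((cl hs (tV x)).image (g x).σ, (tP x).image (g x).ρ), fun i => (g x).act (x i),
      (ed hs (cl hs (tV x))).image fun r => (g x).γ ∘ r,
      (tP x ×ˢ cl hs (tV x)).image fun z => ((g x).ρ z.1, (g x).γ (z.2, M.f z.1 z.2)))
  have hfin : (Set.range code).Finite := by
    refine (Set.Finite.prod (Set.Finite.prod (range n).powerset.finite_toSet
      (range n).powerset.finite_toSet) (Set.Finite.prod
      (Set.Finite.pi' fun _ : ι => (S ×ˢ range n).finite_toSet) (Set.Finite.prod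
      (Fintype.piFinset fun _ : Fin 3 => S).powerset.finite_toSet
      (range n ×ˢ S).powerset.finite_toSet))).subset ?_
    rintro _ ⟨x, rfl⟩
    refine ⟨⟨mem_coe.2 (mem_powerset.2 ?_), mem_coe.2 (mem_powerset.2 ?_)⟩, fun i => ?_,
      mem_coe.2 (mem_powerset.2 ?_), mem_coe.2 (mem_powerset.2 ?_)⟩
    · exact image_subset_iff.2 fun v hv => mem_range.2 (h1 x v hv)
    · exact image_subset_iff.2 fun v hv => mem_range.2 (h2 x v hv)
    · exact mem_coe.2 (mem_product.2 ⟨hS' x _ (mem_union_right _ (mem_tE.2 ⟨i, rfl⟩)),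
        mem_range.2 (h2 x _ (mem_tP.2 ⟨i, rfl⟩))⟩)
    · exact image_subset_iff.2 fun r hr => Fintype.mem_piFinset.2 fun i => hS' x _
        (mem_union_left _ (mem_relE.2 (Or.inl ⟨r, (mem_ed.1 hr).1, (mem_ed.1 hr).2, i, rfl⟩)))
    · exact image_subset_iff.2 fun z hz => mem_product.2
        ⟨mem_range.2 (h2 x _ (mem_product.1 hz).1), hS' x _ (mem_union_left _ (mem_relE.2
          (Or.inr ⟨_, (mem_product.1 hz).1, _, (mem_product.1 hz).2, rfl⟩)))⟩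
  have key : ∀ x y, code x = code y → Eqv M x y := by
    intro x y h
    simp only [code, Prod.mk.injEq] at h
    obtain ⟨⟨e1, e2⟩, e3, e4, e5⟩ := h
    have hR : ∀ z r, vs r ⊆ (cl hs (tV z)).image (g z).σ →
        (r ∈ (tr (g z) M).R ↔ r ∈ (ed hs (cl hs (tV z))).image fun r => (g z).γ ∘ r) := by
      intro z r hr
      rw [← act_inv (g z) r, vs_act_subset] at hr
      constructor
      · exact fun h => mem_image.2 ⟨_, mem_ed.2 ⟨h, hr⟩, act_inv _ _⟩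
      · intro h
        obtain ⟨r', h', rfl⟩ := mem_image.1 h
        exact ((iso_tr (g z) M _ ∅).1 r' (mem_ed.1 h').2).1 (mem_ed.1 h').1
    have ag : Agree (tr (g x) M) (tr (g y) M) ((cl hs (tV x)).image (g x).σ)
        ((tP x).image (g x).ρ) := by
      refine ⟨fun r hr => by rw [hR x r hr, hR y r (e1 ▸ hr), e4], fun p' hp' v' hv' => ?_⟩
      obtain ⟨p, hp, rfl⟩ := mem_image.1 hp'
      obtain ⟨v, hv, rfl⟩ := mem_image.1 hv'
      have a1 : ((g x).ρ p, (g x).γ (v, M.f p v)) ∈ (tP y ×ˢ cl hs (tV y)).image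
          fun z => ((g y).ρ z.1, (g y).γ (z.2, M.f z.1 z.2)) :=
        e5 ▸ mem_image.2 ⟨(p, v), mem_product.2 ⟨hp, hv⟩, rfl⟩
      obtain ⟨z, hz, a2⟩ := mem_image.1 a1
      rw [(iso_tr (g x) M _ _).2 p hp v hv,
        (iso_tr (g y) M _ _).2 _ (mem_product.1 hz).1 _ (mem_product.1 hz).2] at a2
      simp only [Prod.mk.injEq] at a2
      rw [← a2.2.2, a2.1, a2.2.1]
    have i1 := (iso_tr (g x) M _ _).agree_right ag
    have i2 := (iso_tr (g y) M (cl hs (tV y)) (tP y)).inv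
    rw [← e1, ← e2] at i2
    refine ⟨_, _, _, ⟨cl_cl hs _, ?_, i1.mul i2⟩, fun i => ⟨subset_cl hs _ (mem_tV.2 ⟨i, rfl⟩),
      mem_tP.2 ⟨i, rfl⟩, ?_⟩⟩
    · show Cl M.R ((cl hs (tV x)).image ⇑((g y).σ⁻¹ * (g x).σ))
      rw [image_mul, e1, image_inv]
      exact cl_cl hs _
    · show (g y).inv.act ((g x).act (x i)) = y i
      rw [congrFun e3 i, act_inv_act]
  refine ⟨Function.invFun code '' Set.range code, hfin.image _, fun x =>
    ⟨_, ⟨_, ⟨x, rfl⟩, rfl⟩, key _ _ (Function.invFun_eq ⟨x, rfl⟩).symm⟩⟩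

/-- the back-and-forth system -/
def bf (hs : Sp M.R) (hh : Hit M) (hr : Rich M) : BF O where
  E := Eqv M
  refl x := ⟨G.one, cl hs (tV x), tP x, ⟨cl_cl hs _, by
    show Cl M.R ((cl hs (tV x)).image id)
    rw [image_id]
    exact cl_cl hs _, iso_one _ _ _⟩, fun i =>
      ⟨subset_cl hs _ (mem_tV.2 ⟨i, rfl⟩), mem_tP.2 ⟨i, rfl⟩, rfl⟩⟩
  symm := Eqv.symm
  trans := Eqv.trans
  comp f _ _ := fun ⟨g, X, Q, h, h'⟩ => ⟨g, X, Q, h, fun i => h' (f i)⟩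
  inj := fun ⟨_, _, _, _, h'⟩ e => by rw [← (h' _).2.2, ← (h' _).2.2, e]
  ext h a := h.ext hs hh hr a
  fin := eqv_fin hs

end Pool.Agent.H821Z.Ex
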