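import Pool.Agent.H821Z.Ex.Iface
import Pool.Agent.H821Z.Ex.Defs

/-! The canonical first-order structure of a back-and-forth system of finite index. -/

set_option autoImplicit false

namespace Pool.Agent.H821Z.Ex

open FirstOrder FirstOrder.Language Cardinal

universe w w'

variable {O : Type} (B : BF O)

/-- the language of the invariant relations -/
def BF.L : FirstOrder.Language.{0, 0} :=
  ⟨fun _ => Empty, fun n => {S : Set (Fin n → O) // ∀ x y, B.E x y → x ∈ S → y ∈ S}⟩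

/-- the canonical structure -/
def BF.C (_B : BF O) : Type := O

instance : B.L.Structure B.C where
  funMap f := f.elim
  RelMap r x := x ∈ r.1

lemma BF.countable : Countable B.L.Symbols := by
  have h : ∀ n, Finite (B.L.Relations n) := by
    intro n
    obtain ⟨s, hs, hs'⟩ := B.fin (Fin n)
    have := hs.to_subtype
    refine Finite.of_injective (fun r => {y : s | y.1 ∈ r.1}) fun r r' e => Subtype.ext ?_
    ext x
    obtain ⟨y, hy, h⟩ := hs' x
    have e' : y ∈ r.1 ↔ y ∈ r'.1 := Set.ext_iff.1 e ⟨y, hy⟩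
    exact ⟨fun a => r'.2 _ _ (B.symm h) (e'.1 (r.2 _ _ h a)),
      fun a => r.2 _ _ (B.symm h) (e'.2 (r'.2 _ _ h a))⟩
  have h' : ∀ n, Countable (B.L.Functions n) := fun _ => inferInstanceAs (Countable Empty)
  unfold FirstOrder.Language.Symbols
  infer_instance

lemma BF.term_var {γ : Type} (t : B.L.Term γ) : ∃ i, t = Term.var i := by
  cases t with
  | var i => exact ⟨i, rfl⟩
  | func f _ => exact f.elim

lemma BF.realize_bd {α : Type} {n : ℕ} (φ : B.L.BoundedFormula α n) :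
    ∀ (v v' : α → B.C) (x x' : Fin n → B.C), B.E (Sum.elim v x) (Sum.elim v' x') →
      (φ.Realize v x ↔ φ.Realize v' x') := by
  induction φ with
  | falsum => exact fun _ _ _ _ _ => Iff.rfl
  | equal t₁ t₂ =>
    intro v v' x x' h
    obtain ⟨i, rfl⟩ := B.term_var t₁
    obtain ⟨j, rfl⟩ := B.term_var t₂
    exact ⟨fun e => B.inj (i := i) (j := j) h e, fun e => B.inj (i := i) (j := j) (B.symm h) e⟩
  | rel r ts =>
    intro v v' x x' h
    choose f hf using fun i => B.term_var (ts i)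
    obtain rfl : ts = fun i => Term.var (f i) := funext hf
    exact ⟨r.2 _ _ (B.comp f h), r.2 _ _ (B.comp f (B.symm h))⟩
  | imp _ _ ih₁ ih₂ =>
    intro v v' x x' h
    exact imp_congr (ih₁ _ _ _ _ h) (ih₂ _ _ _ _ h)
  | @all n φ ih =>
    have key : ∀ (v v' : α → B.C) (x x' : Fin n → B.C), B.E (Sum.elim v x) (Sum.elim v' x') →
        (∀ a, φ.Realize v' (Fin.snoc x' a)) → ∀ a, φ.Realize v (Fin.snoc x a) := by
      intro v v' x x' h h' a
      obtain ⟨b, hb⟩ := B.ext h (fun _ : Unit => a)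
      have := B.comp (Sum.elim (fun i => Sum.inl (Sum.inl i))
        (Fin.snoc (α := fun _ => (α ⊕ Fin n) ⊕ Unit) (fun i => Sum.inl (Sum.inr i)) (Sum.inr ()))) hb
      refine (ih _ _ _ _ ?_).2 (h' (b ()))
      convert this using 1 <;>
      · funext i
        rcases i with i | i
        · rfl
        · refine Fin.lastCases ?_ (fun i => ?_) i <;> simp
    intro v v' x x' h
    simp only [BoundedFormula.realize_all]
    exact ⟨key _ _ _ _ (B.symm h), key _ _ _ _ h⟩

lemma BF.realize_iff {α : Type} (φ : B.L.Formula α) {v v' : α → B.C} (h : B.E v v') :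
    φ.Realize v ↔ φ.Realize v' := by
  refine B.realize_bd φ v v' default default ?_
  have := B.comp (Sum.elim id Fin.elim0 : α ⊕ Fin 0 → α) h
  convert this using 1 <;>
  · funext i
    rcases i with i | i
    · rfl
    · exact i.elim0

lemma BF.exists_isolate {ι : Type} [Finite ι] (y : ι → B.C) :
    ∃ θ : B.L.Formula ι, ∀ z : ι → B.C, θ.Realize z ↔ B.E y z := by
  obtain ⟨n, ⟨e⟩⟩ := Finite.exists_equiv_fin ι
  let r : B.L.Relations n := ⟨{z | B.E (y ∘ e.symm) z}, fun _ _ h h' => B.trans h' h⟩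
  refine ⟨r.formula fun i => Term.var (e.symm i), fun z => ?_⟩
  rw [Formula.realize_rel]
  refine ⟨fun h => ?_, fun h => B.comp e.symm h⟩
  have := B.comp e (show B.E (y ∘ e.symm) (z ∘ e.symm) from h)
  simpa [Function.comp_assoc] using this

/-- tuples satisfying the same formulas -/
def Sim (L : FirstOrder.Language.{0, 0}) {M : Type w} {N : Type w'} [L.Structure M] [L.Structure N] {ι : Type}
    (x : ι → M) (y : ι → N) : Prop := ∀ φ : L.Formula ι, φ.Realize x ↔ φ.Realize y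

lemma Sim.comp {L : FirstOrder.Language.{0, 0}} {M : Type w} {N : Type w'} [L.Structure M] [L.Structure N]
    {ι κ : Type} {x : ι → M} {y : ι → N} (h : Sim L x y) (f : κ → ι) : Sim L (x ∘ f) (y ∘ f) :=
  fun φ => by rw [← Formula.realize_relabel, ← Formula.realize_relabel]; exact h _

lemma BF.transfer {N : Type w} [B.L.Structure N] [N ⊨ B.L.completeTheory B.C] {ι : Type} [Finite ι]
    (φ : B.L.Formula ι) (h : ∀ z : ι → B.C, φ.Realize z) (x : ι → N) : φ.Realize x := by
  have h1 : B.C ⊨ ((φ.relabel Sum.inr : B.L.Formula (Empty ⊕ ι)).iAlls ι) := by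
    simp only [Sentence.Realize, Formula.realize_iAlls, Formula.realize_relabel]
    exact fun z => h _
  have h2 := (realize_iff_of_model_completeTheory B.C N _).2 h1
  simp only [Sentence.Realize, Formula.realize_iAlls, Formula.realize_relabel] at h2
  exact h2 x

lemma BF.sim_of_isolate {N : Type w} [B.L.Structure N] [N ⊨ B.L.completeTheory B.C] {ι : Type}
    [Finite ι] {y : ι → B.C} {θ : B.L.Formula ι} (hθ : ∀ z : ι → B.C, θ.Realize z ↔ B.E y z)
    {x : ι → N} (hx : θ.Realize x) : Sim B.L x y := by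
  have key : ∀ φ : B.L.Formula ι, φ.Realize y → φ.Realize x := fun φ h =>
    Formula.realize_imp.1 (B.transfer (θ.imp φ) (fun z => Formula.realize_imp.2 fun hz =>
      (B.realize_iff φ ((hθ z).1 hz)).1 h) x) hx
  refine fun φ => ⟨fun h => ?_, key φ⟩
  by_contra hn
  exact Formula.realize_not.1 (key φ.not (Formula.realize_not.2 hn)) h

lemma BF.exists_sim {N : Type w} [B.L.Structure N] [N ⊨ B.L.completeTheory B.C] {ι : Type}
    [Finite ι] (x : ι → N) : ∃ y : ι → B.C, Sim B.L x y := by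
  obtain ⟨s, hs, hs'⟩ := B.fin ι
  have := hs.to_subtype
  choose θ hθ using fun y : s => B.exists_isolate y.1
  obtain ⟨y, hy⟩ := Formula.realize_iSup.1 (B.transfer (Formula.iSup θ) (fun z => by
    obtain ⟨y, hy, h⟩ := hs' z
    exact Formula.realize_iSup.2 ⟨⟨y, hy⟩, (hθ _ _).2 (B.symm h)⟩) x)
  exact ⟨y.1, B.sim_of_isolate (hθ y) hy⟩

lemma BF.forth {M : Type w} {N : Type w'} [B.L.Structure M] [M ⊨ B.L.completeTheory B.C]
    [B.L.Structure N] [N ⊨ B.L.completeTheory B.C] {ι κ : Type} [Finite ι] [Finite κ] {x : ι → M}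
    {y : ι → N} (h : Sim B.L x y) (a : κ → M) : ∃ b : κ → N, Sim B.L (Sum.elim x a) (Sum.elim y b) := by
  obtain ⟨t, ht⟩ := B.exists_sim (Sum.elim x a)
  obtain ⟨θ, hθ⟩ := B.exists_isolate t
  obtain ⟨b, hb⟩ := Formula.realize_iExs.1 ((h (θ.iExs κ)).1
    (Formula.realize_iExs.2 ⟨a, (ht θ).2 ((hθ t).2 (B.refl t))⟩))
  exact ⟨b, fun φ => (ht φ).trans (B.sim_of_isolate hθ hb φ).symm⟩

/-- finite partial elementary maps -/
def Gd (L : FirstOrder.Language.{0, 0}) {M : Type w} {N : Type w'} [L.Structure M] [L.Structure N]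
    (s : Set (M × N)) : Prop :=
  s.Finite ∧ ∀ (n : ℕ) (f : Fin n → M × N), (∀ i, f i ∈ s) → Sim L (Prod.fst ∘ f) (Prod.snd ∘ f)

lemma Gd.swap {L : FirstOrder.Language.{0, 0}} {M : Type w} {N : Type w'} [L.Structure M] [L.Structure N]
    {s : Set (M × N)} (h : Gd L s) : Gd L (Prod.swap '' s) := by
  refine ⟨h.1.image _, fun n f hf φ => ?_⟩
  refine (h.2 n (Prod.swap ∘ f) (fun i => ?_) φ).symm
  obtain ⟨p, hp, e⟩ := hf i
  simpa [← e] using hp

lemma BF.gd_forth {M : Type w} {N : Type w'} [B.L.Structure M] [M ⊨ B.L.completeTheory B.C]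
    [B.L.Structure N] [N ⊨ B.L.completeTheory B.C] {s : Set (M × N)} (h : Gd B.L s) (a : M) :
    ∃ b, Gd B.L (insert (a, b) s) := by
  obtain ⟨k, e, -, he⟩ := h.1.fin_param
  obtain ⟨b, hb⟩ := B.forth (h.2 k e fun i => he ▸ ⟨i, rfl⟩) (fun _ : Unit => a)
  refine ⟨b (), h.1.insert _, fun n f hf => ?_⟩
  have : ∀ i, ∃ j : Fin k ⊕ Unit, f i = Sum.elim e (fun _ => (a, b ())) j := by
    intro i
    rcases hf i with h1 | h1
    · exact ⟨.inr (), h1⟩
    · obtain ⟨j, hj⟩ := he ▸ h1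
      exact ⟨.inl j, hj.symm⟩
  choose g hg using this
  have := hb.comp g
  convert this using 1 <;>
  · funext i
    simp only [Function.comp, hg i]
    rcases g i with j | j <;> rfl

lemma BF.gd_step {M : Type w} {N : Type w'} [B.L.Structure M] [M ⊨ B.L.completeTheory B.C]
    [B.L.Structure N] [N ⊨ B.L.completeTheory B.C] (s : {s : Set (M × N) // Gd B.L s}) (a : M)
    (b : N) : ∃ t : {s : Set (M × N) // Gd B.L s}, s.1 ⊆ t.1 ∧ (∃ b', (a, b') ∈ t.1) ∧
      ∃ a', (a', b) ∈ t.1 := by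
  obtain ⟨b', h1⟩ := B.gd_forth s.2 a
  obtain ⟨a', h2⟩ := B.gd_forth h1.swap b
  refine ⟨⟨_, h2.swap⟩, fun p hp => ⟨p.swap, Or.inr ⟨p, Or.inr hp, rfl⟩, rfl⟩,
    ⟨b', (b', a), Or.inr ⟨(a, b'), Or.inl rfl, rfl⟩, rfl⟩, a', (b, a'), Or.inl rfl, rfl⟩

theorem BF.iso (M : Type w) (N : Type w') [B.L.Structure M] [M ⊨ B.L.completeTheory B.C]
    [B.L.Structure N] [N ⊨ B.L.completeTheory B.C] [Countable M] [Countable N] [Nonempty M]
    [Nonempty N] : Nonempty (M ≃[B.L] N) := by
  obtain ⟨e₁, he₁⟩ := exists_surjective_nat M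
  obtain ⟨e₂, he₂⟩ := exists_surjective_nat N
  choose nx h1 h2 h3 using B.gd_step (M := M) (N := N)
  have h0 : Gd B.L (∅ : Set (M × N)) := by
    refine ⟨Set.finite_empty, fun n f hf φ => ?_⟩
    obtain ⟨y, hy⟩ := B.exists_sim (Prod.fst ∘ f)
    obtain ⟨z, hz⟩ := B.exists_sim (Prod.snd ∘ f)
    obtain rfl : y = z := funext fun i => (hf i).elim
    exact (hy φ).trans (hz φ).symm
  let s : ℕ → {s : Set (M × N) // Gd B.L s} :=
    fun n => Nat.rec ⟨∅, h0⟩ (fun n t => nx t (e₁ n) (e₂ n)) n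
  have mono : Monotone fun n => (s n).1 := monotone_nat_of_le_succ fun n => h1 _ _ _
  have key : ∀ (n : ℕ) (f : Fin n → M × N), (∀ i, ∃ k, f i ∈ (s k).1) →
      Sim B.L (Prod.fst ∘ f) (Prod.snd ∘ f) := by
    intro n f hf
    choose k hk using hf
    exact (s (Finset.univ.sup k)).2.2 n f fun i =>
      mono (Finset.le_sup (f := k) (Finset.mem_univ i)) (hk i)
  have hf : ∀ a, ∃ b k, (a, b) ∈ (s k).1 := by
    intro a
    obtain ⟨n, rfl⟩ := he₁ a
    obtain ⟨b, hb⟩ := h2 (s n) (e₁ n) (e₂ n)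
    exact ⟨b, n + 1, hb⟩
  choose F hF using hf
  have heq : ∀ p q : M × N, (∃ k, p ∈ (s k).1) → (∃ k, q ∈ (s k).1) → (p.1 = q.1 ↔ p.2 = q.2) := by
    intro p q hp hq
    simpa using key 2 ![p, q] (by
      intro i
      fin_cases i
      exacts [hp, hq]) (Term.equal (Term.var 0) (Term.var 1))
  have hbij : Function.Bijective F := by
    refine ⟨fun a a' h => (heq (a, F a) (a', F a') (hF a) (hF a')).2 h, fun b => ?_⟩
    obtain ⟨n, rfl⟩ := he₂ b
    obtain ⟨a, ha⟩ := h3 (s n) (e₁ n) (e₂ n)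
    exact ⟨a, (heq (a, F a) (a, e₂ n) (hF a) ⟨n + 1, ha⟩).1 rfl⟩
  refine ⟨⟨Equiv.ofBijective F hbij, fun f => f.elim, fun {n} r x => ?_⟩⟩
  have := key n (fun i => (x i, F (x i))) (fun i => hF _) (r.formula Term.var)
  rw [Formula.realize_rel, Formula.realize_rel] at this
  exact this.symm

theorem BF.exists_emb [Countable O] [Infinite O] (N : Type w) [B.L.Structure N]
    [N ⊨ B.L.completeTheory B.C] (s : Set N) (hs : s.Countable) :
    ∃ j : B.C ↪ₑ[B.L] N, s ⊆ Set.range j := by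
  have i1 : Infinite B.C := inferInstanceAs (Infinite O)
  have i2 : Countable B.C := inferInstanceAs (Countable O)
  have i3 : Infinite N := (B.L.model_infiniteTheory_iff).1
    (Theory.Model.mono (T' := B.L.completeTheory B.C) inferInstance Theory.completeTheory.subset)
  have i4 := B.countable
  have i6 : B.L.card ≤ ℵ₀ := Cardinal.mk_le_aleph0_iff.2 i4
  obtain ⟨S, h1, h2⟩ := exists_elementarySubstructure_card_eq B.L s Cardinal.aleph0.{0} le_rfl
    (by simpa using hs) (by simpa using i6) (by simp)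
  have i5 : Countable S := by
    rw [← Cardinal.mk_le_aleph0_iff]
    simpa using h2.le
  obtain ⟨e⟩ := B.iso B.C S
  exact ⟨S.subtype.comp e.toElementaryEmbedding, fun x hx => ⟨e.symm ⟨x, h1 hx⟩, by simp⟩⟩

end Pool.Agent.H821Z.Ex
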